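import Pool.Agent.H213R3.MC.Good

set_option autoImplicit false

/-!
# Absoluteness of bounded formulas
-/

namespace Pool.Agent.H213R3.MC

open FirstOrder FirstOrder.Language

universe u

section

variable {W W' : Set ZFSet.{u}} (hW : ∀ x ∈ W, ∀ y ∈ x, y ∈ W) (h : W ⊆ W')

theorem elim_incl {α : Type} {n : ℕ} (v : α → W) (xs : Fin n → W) (t : α ⊕ Fin n) :
    Sum.elim (fun a => Set.inclusion h (v a)) (fun i => Set.inclusion h (xs i)) t =
      Set.inclusion h (Sum.elim v xs t) := by
  cases t <;> rfl

theorem snoc_incl {n : ℕ} (xs : Fin n → W) (x : W) :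
    (Fin.snoc (α := fun _ => W') (fun i => Set.inclusion h (xs i)) (Set.inclusion h x)) =
      fun i => Set.inclusion h (Fin.snoc (α := fun _ => W) xs x i) := by
  funext i
  refine Fin.lastCases ?_ (fun i => ?_) i
  · simp
  · simp

theorem elim_snoc {α : Type} {M : Type*} {n : ℕ} (v : α → M) (xs : Fin n → M) (x : M)
    (t : α ⊕ Fin n) :
    Sum.elim v (Fin.snoc (α := fun _ => M) xs x) (Sum.map id Fin.castSucc t) =
      Sum.elim v xs t := by
  cases t <;> simp

include hW

theorem delta0_abs {α : Type} {n : ℕ} {φ : LSet.BoundedFormula α n} (hφ : IsDelta0 φ)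
    (v : α → W) (xs : Fin n → W) :
    φ.Realize (fun a => Set.inclusion h (v a)) (fun i => Set.inclusion h (xs i)) ↔
      φ.Realize v xs := by
  induction hφ with
  | falsum => exact Iff.rfl
  | eq s t =>
    rw [BoundedFormula.realize_bdEqual, BoundedFormula.realize_bdEqual, Term.realize_var,
      Term.realize_var, Term.realize_var, Term.realize_var, elim_incl h v xs s,
      elim_incl h v xs t, (Set.inclusion_injective h).eq_iff]
  | mem s t =>
    rw [realize_memF, realize_memF, Term.realize_var, Term.realize_var, Term.realize_var,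
      Term.realize_var, elim_incl h v xs s, elim_incl h v xs t]
  | imp _ _ ih1 ih2 =>
    rw [BoundedFormula.realize_imp, BoundedFormula.realize_imp, ih1, ih2]
  | and _ _ ih1 ih2 =>
    rw [BoundedFormula.realize_inf, BoundedFormula.realize_inf, ih1, ih2]
  | or _ _ ih1 ih2 =>
    rw [BoundedFormula.realize_sup, BoundedFormula.realize_sup, ih1, ih2]
  | ball t _ ih =>
    rw [BoundedFormula.realize_all, BoundedFormula.realize_all]
    simp only [BoundedFormula.realize_imp, realize_memF, Term.realize_var, Function.comp,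
      Sum.elim_inr, Fin.snoc_last, elim_snoc, elim_incl]
    constructor
    · intro H x hx
      have h1 := H (Set.inclusion h x) hx
      rw [snoc_incl, ih] at h1
      exact h1
    · intro H x hx
      have hx' : x.1 ∈ W := hW _ (Sum.elim v xs t).2 _ hx
      have h1 := H ⟨x.1, hx'⟩ hx
      rw [← ih (Fin.snoc xs ⟨x.1, hx'⟩), ← snoc_incl] at h1
      exact h1
  | bex t _ ih =>
    rw [BoundedFormula.realize_ex, BoundedFormula.realize_ex]
    simp only [BoundedFormula.realize_inf, realize_memF, Term.realize_var, Function.comp,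
      Sum.elim_inr, Fin.snoc_last, elim_snoc, elim_incl]
    constructor
    · rintro ⟨x, hx, h2⟩
      have hx' : x.1 ∈ W := hW _ (Sum.elim v xs t).2 _ hx
      refine ⟨⟨x.1, hx'⟩, hx, ?_⟩
      rw [← ih (Fin.snoc xs ⟨x.1, hx'⟩), ← snoc_incl]
      exact h2
    · rintro ⟨x, hx, h2⟩
      refine ⟨Set.inclusion h x, hx, ?_⟩
      rw [snoc_incl, ih]
      exact h2

end

end Pool.Agent.H213R3.MC
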