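import Pool.Agent.H213R3.MC.Abs

set_option autoImplicit false

/-!
# The formula expressing that a set is a universe
-/

namespace Pool.Agent.H213R3.MC

open FirstOrder FirstOrder.Language

universe u

/-- bounded universal quantifier -/
abbrev ball {α : Type} {n : ℕ} (t : α ⊕ Fin n) (φ : LSet.BoundedFormula α (n + 1)) :
    LSet.BoundedFormula α n :=
  ∀' (memF (&(Fin.last n)) (Term.var (Sum.map id Fin.castSucc t)) ⟹ φ)

/-- bounded existential quantifier -/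
abbrev bex {α : Type} {n : ℕ} (t : α ⊕ Fin n) (φ : LSet.BoundedFormula α (n + 1)) :
    LSet.BoundedFormula α n :=
  ∃' (memF (&(Fin.last n)) (Term.var (Sum.map id Fin.castSucc t)) ⊓ φ)

/-- membership of variables -/
abbrev mv {α : Type} {n : ℕ} (s t : α ⊕ Fin n) : LSet.BoundedFormula α n :=
  memF (Term.var s) (Term.var t)

/-- equality of variables -/
abbrev ev {α : Type} {n : ℕ} (s t : α ⊕ Fin n) : LSet.BoundedFormula α n :=
  (Term.var s) =' (Term.var t)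

/-- lifting of variables -/
abbrev lft {α : Type} {n : ℕ} (t : α ⊕ Fin n) : α ⊕ Fin (n + 1) := Sum.map id Fin.castSucc t

/-- the last variable -/
abbrev lst {α : Type} (n : ℕ) : α ⊕ Fin (n + 1) := Sum.inr (Fin.last n)

/-- `p` is the Kuratowski pair of `t` and `s` -/
def isPair {α : Type} {n : ℕ} (p t s : α ⊕ Fin n) : LSet.BoundedFormula α n :=
  bex p (bex (lft p)
    (((ball (lft (lst n)) (ev (lst _) (lft (lft (lft t))))) ⊓ mv (lft (lft t)) (lft (lst n))) ⊓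
    (((ball (lst (n + 1)) (ev (lst _) (lft (lft (lft t))) ⊔ ev (lst _) (lft (lft (lft s))))) ⊓
      (mv (lft (lft t)) (lst (n + 1)) ⊓ mv (lft (lft s)) (lst (n + 1)))) ⊓
    ball (lft (lft p)) (ev (lst _) (lft (lft (lst n))) ⊔ ev (lst _) (lft (lst (n + 1)))))))

/-- the pair of `t` and `s` belongs to `r` -/
def prIn {α : Type} {n : ℕ} (r t s : α ⊕ Fin n) : LSet.BoundedFormula α n :=
  bex r (isPair (lst n) (lft t) (lft s))

/-- the parameter `y` -/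
abbrev yy {n : ℕ} : Fin 1 ⊕ Fin n := Sum.inl 0

/-- the bound variables -/
abbrev vv {n : ℕ} (i : Fin n) : Fin 1 ⊕ Fin n := Sum.inr i

abbrev θtrans : LSet.BoundedFormula (Fin 1) 1 := ball yy (ball (vv 1) (mv (vv 2) yy))

abbrev θsub : LSet.BoundedFormula (Fin 1) 1 :=
  ball yy ((ball (vv 0) (mv (vv 2) (vv 1))) ⟹ mv (vv 0) yy)

abbrev θpow : LSet.BoundedFormula (Fin 1) 1 :=
  ball yy (bex yy (ball yy ((ball (vv 3) (mv (vv 4) (vv 1))) ⟹ mv (vv 3) (vv 2))))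

abbrev θunion : LSet.BoundedFormula (Fin 1) 1 :=
  ball yy (bex yy (ball (vv 1) (ball (vv 3) (mv (vv 4) (vv 2)))))

abbrev θpair : LSet.BoundedFormula (Fin 1) 1 :=
  ball yy (ball yy (bex yy (mv (vv 1) (vv 3) ⊓ mv (vv 2) (vv 3))))

abbrev θinf : LSet.BoundedFormula (Fin 1) 1 :=
  bex yy ((bex (vv 1) (ball (vv 2) ⊥)) ⊓
    ball (vv 1) (bex (vv 1) ((ball (vv 3) (mv (vv 4) (vv 2) ⊔ ev (vv 4) (vv 2))) ⊓
      ((ball (vv 2) (mv (vv 4) (vv 3))) ⊓ mv (vv 2) (vv 3)))))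

abbrev θrepl : LSet.BoundedFormula (Fin 1) 1 :=
  ball yy (((ball (vv 1) (bex yy (prIn (vv 0) (vv 2) (vv 3)))) ⊓
      (ball (vv 1) (ball yy (ball yy ((prIn (vv 0) (vv 2) (vv 3) ⊓ prIn (vv 0) (vv 2) (vv 4)) ⟹
        ev (vv 3) (vv 4)))))) ⟹
    bex yy (ball (vv 1) (ball yy (prIn (vv 0) (vv 3) (vv 4) ⟹ mv (vv 4) (vv 2)))))

def θ : LSet.BoundedFormula (Fin 1) 1 :=
  θtrans ⊓ (θsub ⊓ (θpow ⊓ (θunion ⊓ (θpair ⊓ (θinf ⊓ θrepl)))))

/-- `χ(y)`: for all `r ⊆ y`, `θ(r, y)` -/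
def χ : LSet.Formula (Fin 1) := ∀' ((ball (vv 0) (mv (vv 1) yy)) ⟹ θ)

theorem isDelta0_isPair {α : Type} {n : ℕ} (p t s : α ⊕ Fin n) : IsDelta0 (isPair p t s) := by
  refine .bex _ (.bex _ (.and (.and (.ball _ (.eq _ _)) (.mem _ _))
    (.and (.and (.ball _ (.or (.eq _ _) (.eq _ _))) (.and (.mem _ _) (.mem _ _)))
      (.ball _ (.or (.eq _ _) (.eq _ _))))))

theorem isDelta0_prIn {α : Type} {n : ℕ} (r t s : α ⊕ Fin n) : IsDelta0 (prIn r t s) :=
  .bex _ (isDelta0_isPair _ _ _)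

theorem isDelta0_θ : IsDelta0 θ := by
  refine .and (.ball _ (.ball (vv 1) (.mem _ _))) (.and ?_ (.and ?_ (.and ?_ (.and ?_ (.and ?_ ?_)))))
  · exact .ball _ (.imp (.ball (vv 0) (.mem _ _)) (.mem _ _))
  · exact .ball _ (.bex yy (.ball yy (.imp (.ball (vv 3) (.mem _ _)) (.mem _ _))))
  · exact .ball _ (.bex yy (.ball (vv 1) (.ball (vv 3) (.mem _ _))))
  · exact .ball _ (.ball yy (.bex yy (.and (.mem _ _) (.mem _ _))))
  · exact .bex _ (.and (.bex (vv 1) (.ball (vv 2) .falsum)) (.ball (vv 1) (.bex (vv 1)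
      (.and (.ball (vv 3) (.or (.mem _ _) (.eq _ _))) (.and (.ball (vv 2) (.mem _ _))
        (.mem _ _))))))
  · exact .ball _ (.imp (.and (.ball (vv 1) (.bex yy (isDelta0_prIn _ _ _)))
      (.ball (vv 1) (.ball yy (.ball yy (.imp (.and (isDelta0_prIn _ _ _) (isDelta0_prIn _ _ _))
        (.eq _ _)))))) (.bex yy (.ball (vv 1) (.ball yy (.imp (isDelta0_prIn _ _ _) (.mem _ _))))))

end Pool.Agent.H213R3.MC
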