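import Pool.Agent.H213R3.MC.Chi

set_option autoImplicit false

/-!
# The semantics of the formula `χ`
-/

namespace Pool.Agent.H213R3.MC

open FirstOrder FirstOrder.Language

universe u

/-- realization in the universe of all sets -/
def R {α : Type} {n : ℕ} (φ : LSet.BoundedFormula α n) (v : α → ZFSet.{u}) (xs : Fin n → ZFSet.{u}) :
    Prop :=
  φ.Realize (M := (Set.univ : Set ZFSet.{u})) (fun a => ⟨v a, Set.mem_univ _⟩) (fun i => ⟨xs i, Set.mem_univ _⟩)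

section

variable {α : Type} {n : ℕ} (v : α → ZFSet.{u}) (xs : Fin n → ZFSet.{u})

theorem elim_mk (t : α ⊕ Fin n) :
    Sum.elim (fun a => (⟨v a, Set.mem_univ _⟩ : (Set.univ : Set ZFSet.{u})))
      (fun i => (⟨xs i, Set.mem_univ _⟩ : (Set.univ : Set ZFSet.{u}))) t =
      ⟨Sum.elim v xs t, Set.mem_univ _⟩ := by
  cases t <;> rfl

theorem snoc_mk (x : ZFSet.{u}) :
    Fin.snoc (α := fun _ => (Set.univ : Set ZFSet.{u}))
      (fun i => (⟨xs i, Set.mem_univ _⟩ : (Set.univ : Set ZFSet.{u}))) ⟨x, Set.mem_univ _⟩ =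
      fun i => ⟨Fin.snoc (α := fun _ => ZFSet.{u}) xs x i, Set.mem_univ _⟩ := by
  funext i
  refine Fin.lastCases ?_ (fun i => ?_) i
  · simp
  · simp

theorem R_mv (s t : α ⊕ Fin n) : R (mv s t) v xs ↔ Sum.elim v xs s ∈ Sum.elim v xs t := by
  unfold R
  rw [realize_memF, Term.realize_var, Term.realize_var, elim_mk, elim_mk]

theorem R_ev (s t : α ⊕ Fin n) : R (ev s t) v xs ↔ Sum.elim v xs s = Sum.elim v xs t := by
  unfold R
  rw [BoundedFormula.realize_bdEqual, Term.realize_var, Term.realize_var, elim_mk, elim_mk]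
  exact Subtype.mk_eq_mk

theorem R_and (φ ψ : LSet.BoundedFormula α n) : R (φ ⊓ ψ) v xs ↔ R φ v xs ∧ R ψ v xs :=
  BoundedFormula.realize_inf

theorem R_or (φ ψ : LSet.BoundedFormula α n) : R (φ ⊔ ψ) v xs ↔ R φ v xs ∨ R ψ v xs :=
  BoundedFormula.realize_sup

theorem R_imp (φ ψ : LSet.BoundedFormula α n) : R (φ ⟹ ψ) v xs ↔ (R φ v xs → R ψ v xs) :=
  BoundedFormula.realize_imp

theorem R_bot : R (⊥ : LSet.BoundedFormula α n) v xs ↔ False := Iff.rfl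

theorem R_all (φ : LSet.BoundedFormula α (n + 1)) :
    R (∀' φ) v xs ↔ ∀ z, R φ v (Fin.snoc xs z) := by
  unfold R
  rw [BoundedFormula.realize_all]
  constructor
  · intro h z
    have := h ⟨z, Set.mem_univ _⟩
    rwa [snoc_mk] at this
  · rintro h ⟨z, hz⟩
    have := h z
    rwa [← snoc_mk] at this

theorem R_ball (t : α ⊕ Fin n) (φ : LSet.BoundedFormula α (n + 1)) :
    R (ball t φ) v xs ↔ ∀ z ∈ Sum.elim v xs t, R φ v (Fin.snoc xs z) := by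
  rw [R_all]
  refine forall_congr' fun z => ?_
  rw [R_imp]
  refine imp_congr ?_ Iff.rfl
  refine (R_mv v (Fin.snoc xs z) (Sum.inr (Fin.last n)) (Sum.map id Fin.castSucc t)).trans ?_
  simp [elim_snoc]

theorem R_bex (t : α ⊕ Fin n) (φ : LSet.BoundedFormula α (n + 1)) :
    R (bex t φ) v xs ↔ ∃ z ∈ Sum.elim v xs t, R φ v (Fin.snoc xs z) := by
  have h : R (bex t φ) v xs ↔ ¬ R (∀' ∼(memF (&(Fin.last n))
      (Term.var (Sum.map id Fin.castSucc t)) ⊓ φ)) v xs := by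
    unfold R
    rw [BoundedFormula.realize_ex, BoundedFormula.realize_all]
    simp only [BoundedFormula.realize_not, not_forall, not_not]
  rw [h, R_all, not_forall]
  refine exists_congr fun z => ?_
  have h2 : R (∼(memF (&(Fin.last n)) (Term.var (Sum.map id Fin.castSucc t)) ⊓ φ)) v
      (Fin.snoc xs z) ↔ ¬ R (memF (&(Fin.last n)) (Term.var (Sum.map id Fin.castSucc t)) ⊓ φ) v
      (Fin.snoc xs z) := BoundedFormula.realize_not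
  rw [h2, not_not, R_and]
  refine and_congr ?_ Iff.rfl
  refine (R_mv v (Fin.snoc xs z) (Sum.inr (Fin.last n)) (Sum.map id Fin.castSucc t)).trans ?_
  simp [elim_snoc]

end

theorem R_isPair {α : Type} {n : ℕ} (v : α → ZFSet.{u}) (xs : Fin n → ZFSet.{u})
    (p t s : α ⊕ Fin n) : R (isPair p t s) v xs ↔
      Sum.elim v xs p = ZFSet.pair (Sum.elim v xs t) (Sum.elim v xs s) := by
  unfold isPair
  simp only [R_bex, R_ball, R_and, R_or, R_ev, R_mv, lft, lst, elim_snoc, Sum.elim_inr,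
    Fin.snoc_last, Sum.map_inr, Fin.snoc_castSucc]
  generalize Sum.elim v xs p = P
  generalize Sum.elim v xs t = T
  generalize Sum.elim v xs s = S
  constructor
  · rintro ⟨a, ha, b, hb, ⟨ha1, ha2⟩, ⟨hb1, hb2, hb3⟩, hc⟩
    have h1 : a = {T} := by
      ext z
      rw [ZFSet.mem_singleton]
      exact ⟨ha1 z, fun h => h ▸ ha2⟩
    have h2 : b = {T, S} := by
      ext z
      rw [ZFSet.mem_pair]
      exact ⟨hb1 z, fun h => h.elim (fun h => h ▸ hb2) (fun h => h ▸ hb3)⟩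
    subst h1 h2
    unfold ZFSet.pair
    ext z
    rw [ZFSet.mem_pair]
    exact ⟨hc z, fun h => h.elim (fun h => h ▸ ha) (fun h => h ▸ hb)⟩
  · rintro rfl
    refine ⟨{T}, ?_, {T, S}, ?_, ⟨?_, ?_⟩, ⟨?_, ?_, ?_⟩, ?_⟩
    · unfold ZFSet.pair; simp
    · unfold ZFSet.pair; simp
    · intro z hz; simpa using hz
    · simp
    · intro z hz; simpa using hz
    · simp
    · simp
    · intro z hz
      unfold ZFSet.pair at hz
      simpa using hz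

theorem R_prIn {α : Type} {n : ℕ} (v : α → ZFSet.{u}) (xs : Fin n → ZFSet.{u})
    (r t s : α ⊕ Fin n) : R (prIn r t s) v xs ↔
      ZFSet.pair (Sum.elim v xs t) (Sum.elim v xs s) ∈ Sum.elim v xs r := by
  unfold prIn
  simp only [R_bex, R_isPair, lft, lst, elim_snoc, Sum.elim_inr, Fin.snoc_last]
  constructor
  · rintro ⟨z, hz, rfl⟩
    exact hz
  · intro h
    exact ⟨_, h, rfl⟩

/-- `y` is a Grothendieck universe with an infinite element -/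
structure GU (y : ZFSet.{u}) : Prop where
  trans : ∀ z ∈ y, ∀ w ∈ z, w ∈ y
  sub : ∀ z ∈ y, ∀ r, r ⊆ z → r ∈ y
  pow : ∀ z ∈ y, ∃ p ∈ y, ∀ w ∈ y, w ⊆ z → w ∈ p
  union : ∀ z ∈ y, ∃ u ∈ y, ∀ w ∈ z, ∀ t ∈ w, t ∈ u
  pair : ∀ z ∈ y, ∀ w ∈ y, ∃ p ∈ y, z ∈ p ∧ w ∈ p
  inf : ∃ z ∈ y, ∅ ∈ z ∧ ∀ w ∈ z, insert w w ∈ z
  repl : ∀ z ∈ y, ∀ F : ZFSet → ZFSet, (∀ t ∈ z, F t ∈ y) → ∃ w ∈ y, ∀ t ∈ z, F t ∈ w

theorem R_θ (y r : ZFSet.{u}) : R θ (fun _ => y) (fun _ => r) ↔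
    (∀ z ∈ y, ∀ w ∈ z, w ∈ y) ∧
    (∀ z ∈ y, (∀ w ∈ r, w ∈ z) → r ∈ y) ∧
    (∀ z ∈ y, ∃ p ∈ y, ∀ w ∈ y, (∀ t ∈ w, t ∈ z) → w ∈ p) ∧
    (∀ z ∈ y, ∃ u ∈ y, ∀ w ∈ z, ∀ t ∈ w, t ∈ u) ∧
    (∀ z ∈ y, ∀ w ∈ y, ∃ p ∈ y, z ∈ p ∧ w ∈ p) ∧
    (∃ z ∈ y, (∃ w ∈ z, ∀ t ∈ w, False) ∧ ∀ w ∈ z, ∃ s ∈ z, (∀ t ∈ s, t ∈ w ∨ t = w) ∧
      (∀ t ∈ w, t ∈ s) ∧ w ∈ s) ∧
    (∀ z ∈ y, ((∀ t ∈ z, ∃ s ∈ y, ZFSet.pair t s ∈ r) ∧
      (∀ t ∈ z, ∀ s ∈ y, ∀ s' ∈ y, ZFSet.pair t s ∈ r ∧ ZFSet.pair t s' ∈ r → s = s')) →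
      ∃ w ∈ y, ∀ t ∈ z, ∀ s ∈ y, ZFSet.pair t s ∈ r → s ∈ w) := by
  unfold θ
  simp only [R_bex, R_ball, R_and, R_or, R_imp, R_bot, R_ev, R_mv, R_prIn, yy, vv, Sum.elim_inl,
    Sum.elim_inr]
  exact Iff.rfl

end Pool.Agent.H213R3.MC
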