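import Mathlib

set_option autoImplicit false

/-!
# Definitions: model companions, partial Morleyizations, ZFC, bounded formulas
-/

namespace Pool.Agent.H213R3.MC

open FirstOrder FirstOrder.Language

universe w

/-! ### Model companions and absolute model companions -/

section companions

variable {L : FirstOrder.Language.{0, 0}}

/-- `T_∀`: the universal sentences that are consequences of `T`. -/
def univPart (T : L.Theory) : Set L.Sentence :=
  {σ | BoundedFormula.IsUniversal σ ∧ T ⊨ᵇ σ}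

/-- Boolean combinations of universal sentences. -/
inductive BoolComb : L.Sentence → Prop
  | of_universal {σ : L.Sentence} : BoundedFormula.IsUniversal σ → BoolComb σ
  | not {σ : L.Sentence} : BoolComb σ → BoolComb (∼σ)
  | and {σ τ : L.Sentence} : BoolComb σ → BoolComb τ → BoolComb (σ ⊓ τ)
  | or {σ τ : L.Sentence} : BoolComb σ → BoolComb τ → BoolComb (σ ⊔ τ)

/-- `T_{∀∨∃}`: the Boolean combinations of universal sentences that are consequences of `T`. -/
def boolPart (T : L.Theory) : Set L.Sentence :=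
  {σ | BoolComb σ ∧ T ⊨ᵇ σ}

/-- `T` is model complete: every embedding between models of `T` is elementary (it preserves the
truth value of every formula at every finite tuple). -/
def IsModelComplete (T : L.Theory) : Prop :=
  ∀ (M N : Type w) [L.Structure M] [L.Structure N] [Nonempty M] [Nonempty N],
    M ⊨ T → N ⊨ T → ∀ (f : M ↪[L] N) (n : ℕ) (φ : L.Formula (Fin n)) (x : Fin n → M),
      φ.Realize (f ∘ x) ↔ φ.Realize x

/-- `T` is the model companion of `S`. -/
def IsModelCompanion (T S : L.Theory) : Prop :=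
  univPart T = univPart S ∧ IsModelComplete.{w} T

/-- `T` is the absolute model companion (AMC) of `S`. -/
def IsAMC (T S : L.Theory) : Prop :=
  boolPart T = boolPart S ∧ IsModelComplete.{w} T

end companions

/-! ### Partial Morleyizations -/

section morley

variable (L : FirstOrder.Language.{0, 0})

/-- The `L`-formulas `φ(x_0, …, x_n)`, with `n` as first component. -/
abbrev Form : Type := Σ n : ℕ, L.Formula (Fin (n + 1))

/-- The new function symbols: `f_φ` of arity `n` for `φ = φ(x_0, …, x_n)` with `(φ, 1) ∈ A`, and the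
constant `c` if there is such a `φ`. -/
inductive NewFun (A : Set (Form L × Fin 2)) : ℕ → Type
  | fn (φ : Form L) (h : (φ, 1) ∈ A) : NewFun A φ.1
  | cst (h : ∃ φ : Form L, (φ, 1) ∈ A) : NewFun A 0

/-- The new relation symbols: `R_φ` of arity `n + 1` for `φ = φ(x_0, …, x_n)` with
`(φ, 0) ∈ A`. -/
inductive NewRel (A : Set (Form L × Fin 2)) : ℕ → Type
  | rel (φ : Form L) (h : (φ, 0) ∈ A) : NewRel A (φ.1 + 1)

/-- The signature `L_A`. -/
abbrev ext (A : Set (Form L × Fin 2)) : FirstOrder.Language.{0, 0} :=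
  L.sum ⟨NewFun L A, NewRel L A⟩

variable {L}

/-- The universal closure of a formula in the variables `x_0, …, x_{n-1}`. -/
noncomputable def close {L : FirstOrder.Language.{0, 0}} {n : ℕ} (φ : L.Formula (Fin n)) : L.Sentence :=
  Formula.iAlls (Fin n) (φ.relabel (Sum.inr : Fin n → Empty ⊕ Fin n))

/-- An `L`-formula as an `L_A`-formula. -/
def up (A : Set (Form L × Fin 2)) {α : Type} (φ : L.Formula α) : (ext L A).Formula α :=
  (LHom.sumInl : L →ᴸ ext L A).onFormula φ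

/-- The function symbol `f_φ`. -/
abbrev fSym {A : Set (Form L × Fin 2)} (φ : Form L) (h : (φ, 1) ∈ A) : (ext L A).Functions φ.1 :=
  Sum.inr (NewFun.fn φ h)

/-- The constant symbol `c`. -/
abbrev cSym {A : Set (Form L × Fin 2)} (h : ∃ φ : Form L, (φ, 1) ∈ A) : (ext L A).Functions 0 :=
  Sum.inr (NewFun.cst h)

/-- The relation symbol `R_φ`. -/
abbrev rSym {A : Set (Form L × Fin 2)} (φ : Form L) (h : (φ, 0) ∈ A) :
    (ext L A).Relations (φ.1 + 1) :=
  Sum.inr (NewRel.rel φ h)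

/-- The axiom `Ax⁰_φ`: for all `x_0, …, x_n`, `φ(x_0, …, x_n) ↔ R_φ(x_0, …, x_n)`. -/
noncomputable def ax0 {A : Set (Form L × Fin 2)} (φ : Form L) (h : (φ, 0) ∈ A) :
    (ext L A).Sentence :=
  close (Formula.iff (up A φ.2) (Relations.formula (rSym φ h) fun i => Term.var i))

/-- `∃! y, φ(y, x_1, …, x_n)`, a formula in `n` variables. -/
noncomputable def uniq {L : FirstOrder.Language.{0, 0}} {n : ℕ} (φ : L.Formula (Fin (n + 1))) :
    L.Formula (Fin n) :=
  Formula.iExsUnique (Fin 1)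
    (φ.relabel (Fin.cases (Sum.inr 0) Sum.inl : Fin (n + 1) → Fin n ⊕ Fin 1))

/-- The axiom `Ax¹_φ`: for all `x_1, …, x_n`, if there is exactly one `y` with
`φ(y, x_1, …, x_n)`, then `φ(f_φ(x_1, …, x_n), x_1, …, x_n)`, and otherwise
`f_φ(x_1, …, x_n) = c`. -/
noncomputable def ax1 {A : Set (Form L × Fin 2)} (φ : Form L) (h : (φ, 1) ∈ A) :
    (ext L A).Sentence :=
  close (Formula.imp (uniq (up A φ.2))
      ((up A φ.2).subst (Fin.cases (Term.func (fSym φ h) fun i => Term.var i) Term.var)) ⊓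
    Formula.imp (Formula.not (uniq (up A φ.2)))
      (Term.equal (Term.func (fSym φ h) fun i => Term.var i)
        (Term.func (cSym ⟨φ, h⟩) fun i => i.elim0)))

/-- The theory `T_{L,A}`. -/
def morleyTheory (A : Set (Form L × Fin 2)) : (ext L A).Theory :=
  {σ | ∃ (φ : Form L) (h : (φ, 0) ∈ A), σ = ax0 φ h} ∪
    {σ | ∃ (φ : Form L) (h : (φ, 1) ∈ A), σ = ax1 φ h}

end morley

/-! ### Set theory -/

/-- The symbols of the signature of set theory: one binary relation symbol. -/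
inductive MemSym : ℕ → Type
  | mem : MemSym 2

/-- The signature `{∈}`. -/
abbrev LSet : FirstOrder.Language.{0, 0} := ⟨fun _ => Empty, MemSym⟩

/-- The formula `t ∈ s`. -/
abbrev memF {α : Type} {n : ℕ} (t s : LSet.Term (α ⊕ Fin n)) : LSet.BoundedFormula α n :=
  Relations.boundedFormula₂ (MemSym.mem : LSet.Relations 2) t s

/-- The formula `x_i ∈ x_j`. -/
abbrev mm {n : ℕ} (i j : Fin n) : LSet.BoundedFormula Empty n := memF (&i) (&j)

/-- The formula `x_i = x_j`. -/
abbrev ee {n : ℕ} (i j : Fin n) : LSet.BoundedFormula Empty n := (&i) =' (&j)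

/-- The formula `φ(x_{g 0}, …, x_{g (m-1)})`. -/
def pl {m k : ℕ} (φ : LSet.Formula (Fin m)) (g : Fin m → Fin k) : LSet.BoundedFormula Empty k :=
  BoundedFormula.relabel (n := k) (fun i => Sum.inr (g i)) φ

/-- Extensionality. -/
def axExt : LSet.Sentence := ∀' ∀' ((∀' (mm 2 0 ⇔ mm 2 1)) ⟹ ee 0 1)

/-- Foundation. -/
def axFound : LSet.Sentence := ∀' ((∃' mm 1 0) ⟹ ∃' (mm 1 0 ⊓ ∀' (mm 2 0 ⟹ ∼(mm 2 1))))

/-- Pairing. -/
def axPair : LSet.Sentence := ∀' ∀' ∃' ∀' (mm 3 2 ⇔ (ee 3 0 ⊔ ee 3 1))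

/-- Union. -/
def axUnion : LSet.Sentence := ∀' ∃' ∀' (mm 2 1 ⇔ ∃' (mm 3 0 ⊓ mm 2 3))

/-- Power set. -/
def axPow : LSet.Sentence := ∀' ∃' ∀' (mm 2 1 ⇔ ∀' (mm 3 2 ⟹ mm 3 0))

/-- Infinity: there is a set that contains the empty set and with `y` also `y ∪ {y}`. -/
def axInf : LSet.Sentence :=
  ∃' ((∃' (mm 1 0 ⊓ ∀' ∼(mm 2 1))) ⊓
    ∀' (mm 1 0 ⟹ ∃' (mm 2 0 ⊓ ∀' (mm 3 2 ⇔ (mm 3 1 ⊔ ee 3 1)))))

/-- Choice: for every set `x` of pairwise disjoint nonempty sets there is a set that meets every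
element of `x` in exactly one point. -/
def axChoice : LSet.Sentence :=
  ∀' (((∀' (mm 1 0 ⟹ ∃' mm 2 1)) ⊓
      ∀' ∀' ((mm 1 0 ⊓ (mm 2 0 ⊓ ∃' (mm 3 1 ⊓ mm 3 2))) ⟹ ee 1 2)) ⟹
    ∃' ∀' (mm 2 0 ⟹ ∃' ∀' ((mm 4 2 ⊓ mm 4 1) ⇔ ee 4 3)))

/-- The instance of Separation for `φ(p_0, …, p_{n-1}, z)`: for all `p` and `a` there is `b` such
that for all `z`, `z ∈ b ↔ z ∈ a ∧ φ(p, z)`. -/
def axSep (n : ℕ) (φ : LSet.Formula (Fin (n + 1))) : LSet.Sentence :=
  BoundedFormula.alls (n := n) (∀' ∃' ∀'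
    (mm (Fin.last (n + 2)) (Fin.last (n + 1)).castSucc ⇔
      (mm (Fin.last (n + 2)) (Fin.last n).castSucc.castSucc ⊓
        pl φ (Fin.lastCases (Fin.last (n + 2)) fun i => i.castSucc.castSucc.castSucc))))

/-- The instance of Replacement for `φ(p_0, …, p_{n-1}, u, v)`: for all `p` and `a`, if for all
`u ∈ a` there is exactly one `v` with `φ(p, u, v)`, then there is `b` such that for all `v`,
`v ∈ b ↔ ∃ u, u ∈ a ∧ φ(p, u, v)`. -/
def axRepl (n : ℕ) (φ : LSet.Formula (Fin (n + 2))) : LSet.Sentence :=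
  BoundedFormula.alls (n := n) (∀'
    ((∀' (mm (Fin.last (n + 1)) (Fin.last n).castSucc ⟹
      ∃' (pl φ (Fin.lastCases (Fin.last (n + 2))
            (Fin.lastCases (Fin.last (n + 1)).castSucc fun i => i.castSucc.castSucc.castSucc)) ⊓
        ∀' (pl φ (Fin.lastCases (Fin.last (n + 3))
            (Fin.lastCases (Fin.last (n + 1)).castSucc.castSucc
              fun i => i.castSucc.castSucc.castSucc.castSucc)) ⟹
          ee (Fin.last (n + 3)) (Fin.last (n + 2)).castSucc)))) ⟹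
    ∃' ∀' (mm (Fin.last (n + 2)) (Fin.last (n + 1)).castSucc ⇔
      ∃' (mm (Fin.last (n + 3)) (Fin.last n).castSucc.castSucc.castSucc ⊓
        pl φ (Fin.lastCases (Fin.last (n + 2)).castSucc
          (Fin.lastCases (Fin.last (n + 3)) fun i => i.castSucc.castSucc.castSucc.castSucc))))))

/-- The theory ZFC. -/
def ZFC : LSet.Theory :=
  {axExt, axFound, axPair, axUnion, axPow, axInf, axChoice} ∪
    ({σ | ∃ n φ, σ = axSep n φ} ∪ {σ | ∃ n φ, σ = axRepl n φ})

/-- `Δ₀` formulas: built from atomic formulas by propositional connectives and bounded quantifiers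
`∀ z ∈ t`, `∃ z ∈ t`, where `t` is a variable. -/
inductive IsDelta0 {α : Type} : ∀ {n : ℕ}, LSet.BoundedFormula α n → Prop
  | falsum {n : ℕ} : IsDelta0 (⊥ : LSet.BoundedFormula α n)
  | eq {n : ℕ} (s t : α ⊕ Fin n) : IsDelta0 ((Term.var s) =' (Term.var t))
  | mem {n : ℕ} (s t : α ⊕ Fin n) : IsDelta0 (memF (Term.var s) (Term.var t))
  | imp {n : ℕ} {φ ψ : LSet.BoundedFormula α n} : IsDelta0 φ → IsDelta0 ψ → IsDelta0 (φ ⟹ ψ)
  | and {n : ℕ} {φ ψ : LSet.BoundedFormula α n} : IsDelta0 φ → IsDelta0 ψ → IsDelta0 (φ ⊓ ψ)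
  | or {n : ℕ} {φ ψ : LSet.BoundedFormula α n} : IsDelta0 φ → IsDelta0 ψ → IsDelta0 (φ ⊔ ψ)
  | ball {n : ℕ} (t : α ⊕ Fin n) {φ : LSet.BoundedFormula α (n + 1)} : IsDelta0 φ →
      IsDelta0 (∀' (memF (&(Fin.last n)) (Term.var (Sum.map id Fin.castSucc t)) ⟹ φ))
  | bex {n : ℕ} (t : α ⊕ Fin n) {φ : LSet.BoundedFormula α (n + 1)} : IsDelta0 φ →
      IsDelta0 (∃' (memF (&(Fin.last n)) (Term.var (Sum.map id Fin.castSucc t)) ⊓ φ))

/-- `D₀`: all pairs `(φ, 0)` with `φ` a `Δ₀` formula, and all pairs `(φ, 1)` with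
`φ(y, x_1, …, x_n)` a `Δ₀` formula such that ZFC proves `∀ x_1 … x_n ∃! y φ`. So the signature
`{∈}_{D₀}` has relation symbols for all `Δ₀` formulas, and function symbols for all functions that
ZFC proves to be total functions with a `Δ₀` graph, such as the constants `∅` and `ω` and the
Goedel operations. -/
def D₀ : Set (Form LSet × Fin 2) :=
  {p | IsDelta0 p.1.2 ∧ (p.2 = 1 → ZFC ⊨ᵇ close (uniq p.1.2))}

/-- The axiom `∀ x, (∀ y, y ∉ x) ↔ x = c`. -/
def axEmpty {A : Set (Form LSet × Fin 2)} (h : ∃ φ : Form LSet, (φ, 1) ∈ A) :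
    (ext LSet A).Sentence :=
  ∀' ((LHom.sumInl : LSet →ᴸ ext LSet A).onBoundedFormula (∀' ∼(mm 1 0)) ⇔
    ((&0) =' (Term.func (cSym h) fun i => i.elim0)))

/-- The theory `T_{∈,A}`. -/
def setMorley (A : Set (Form LSet × Fin 2)) : (ext LSet A).Theory :=
  morleyTheory A ∪ {σ | ∃ h : (∃ φ : Form LSet, (φ, 1) ∈ A), σ = axEmpty h}

/-- The theory `S + T_{∈,A}`. -/
def plus (S : LSet.Theory) (A : Set (Form LSet × Fin 2)) : (ext LSet A).Theory :=
  (LHom.sumInl : LSet →ᴸ ext LSet A).onTheory S ∪ setMorley A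

end Pool.Agent.H213R3.MC
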