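import Mathlib

set_option autoImplicit false

/-!
# Structures satisfying the universal consequences of a theory embed into models
-/

namespace Pool.Agent.H213R3.MC

open FirstOrder FirstOrder.Language

universe w

theorem isUniversal_alls {L : FirstOrder.Language.{0, 0}} {α : Type} : ∀ {n : ℕ}
    (φ : L.BoundedFormula α n), φ.IsUniversal → BoundedFormula.IsUniversal φ.alls := by
  intro n
  induction n with
  | zero => intro φ h; exact h
  | succ n ih => intro φ h; exact ih _ h.all

theorem exists_embedding {L : FirstOrder.Language.{0, 0}} (T : L.Theory) (N : Type w)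
    [L.Structure N]
    (h : ∀ σ : L.Sentence, BoundedFormula.IsUniversal σ → T ⊨ᵇ σ → N ⊨ σ) :
    ∃ (M : Type w) (_ : L.Structure M) (_ : Nonempty M), M ⊨ T ∧ Nonempty (N ↪[L] M) := by
  classical
  let ι : Type w := {p : Σ s : Finset N, L.Formula s //
    BoundedFormula.IsQF p.2 ∧ p.2.Realize (Subtype.val : p.1 → N)}
  let snt : ι → L[[N]].Sentence := fun i => Formula.equivSentence (i.1.2.relabel Subtype.val)
  let TT : ι → L[[N]].Theory := fun i => (L.lhomWithConstants N).onTheory T ∪ {snt i}
  -- satisfiability of a single piece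
  have hone : ∀ i : ι, (TT i).IsSatisfiable := by
    rintro ⟨⟨s, φ⟩, hqf, hreal⟩
    let e := s.equivFin
    let σ : L.Sentence :=
      BoundedFormula.alls (n := s.card) (BoundedFormula.relabel (n := s.card) Sum.inr
        (∼(φ.relabel e) : L.Formula (Fin s.card)))
    have hσ : ∀ (M : Type) [L.Structure M], M ⊨ σ ↔
        ∀ x : Fin s.card → M, ¬ φ.Realize (x ∘ e) := by
      intro M _
      unfold σ Sentence.Realize
      rw [BoundedFormula.realize_alls]
      refine forall_congr' fun x => ?_
      rw [Formula.realize_relabel_sumInr, Formula.realize_not, Formula.realize_relabel]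
    have hσN : N ⊨ σ ↔ ∀ x : Fin s.card → N, ¬ φ.Realize (x ∘ e) := by
      unfold σ Sentence.Realize
      rw [BoundedFormula.realize_alls]
      refine forall_congr' fun x => ?_
      rw [Formula.realize_relabel_sumInr, Formula.realize_not, Formula.realize_relabel]
    have hnot : ¬ T ⊨ᵇ σ := by
      intro hT
      have h1 : BoundedFormula.IsUniversal σ := by
        refine isUniversal_alls _ (BoundedFormula.IsQF.isUniversal ?_)
        exact (BoundedFormula.IsQF.relabel (BoundedFormula.IsQF.not
          (BoundedFormula.IsQF.relabel hqf _)) _)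
      have h2 := hσN.1 (h σ h1 hT) (fun j => (e.symm j : N))
      refine h2 ?_
      have : ((fun j => ((e.symm j : s) : N)) ∘ e) = (Subtype.val : s → N) := by
        funext j
        simp
      rw [this]
      exact hreal
    rw [Theory.models_sentence_iff] at hnot
    push Not at hnot
    obtain ⟨M, hM⟩ := hnot
    rw [hσ] at hM
    push Not at hM
    obtain ⟨x, hx⟩ := hM
    have hMn : Nonempty M := M.nonempty'
    let c : N → M := fun n => if hn : n ∈ s then x (e ⟨n, hn⟩) else Classical.arbitrary M
    letI : (constantsOn N).Structure M := constantsOn.structure c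
    have hmod : M ⊨ TT ⟨⟨s, φ⟩, hqf, hreal⟩ := by
      refine Theory.model_union_iff.2 ⟨(LHom.onTheory_model _ _).2 M.is_model, ?_⟩
      rw [Theory.model_singleton_iff]
      change (Formula.equivSentence (φ.relabel Subtype.val)).Realize M
      rw [Formula.realize_equivSentence, Formula.realize_relabel]
      refine (iff_of_eq (congrArg φ.Realize ?_)).2 hx
      funext j
      change c j.1 = x (e j)
      simp only [c, dif_pos j.2]
    exact Theory.Model.isSatisfiable M
  -- finite sets of pieces
  have hfin : ∀ F : Finset ι, Theory.IsSatisfiable (⋃ i ∈ F, TT i : L[[N]].Theory) := by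
    intro F
    have hdir : ∃ i₀ : ι, ∀ (M : Type w) [L[[N]].Structure M] [Nonempty M],
        M ⊨ TT i₀ → ∀ i ∈ F, M ⊨ TT i := by
      induction F using Finset.induction with
      | empty =>
        refine ⟨⟨⟨∅, ⊤⟩, BoundedFormula.IsQF.top, ?_⟩, ?_⟩
        · exact Formula.realize_top.2 trivial
        · intro M _ _ _ i hi
          exact absurd hi (Finset.notMem_empty _)
      | insert j F _ ih =>
        obtain ⟨⟨⟨s, φ⟩, h1, h2⟩, h3⟩ := ih
        obtain ⟨⟨t, ψ⟩, h4, h5⟩ := j
        let a : s → (s ∪ t : Finset N) := fun z => ⟨z.1, Finset.mem_union_left _ z.2⟩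
        let b : t → (s ∪ t : Finset N) := fun z => ⟨z.1, Finset.mem_union_right _ z.2⟩
        have key : ∀ (M : Type w) [L[[N]].Structure M] [Nonempty M] (c : N → M)
            [L.Structure M],
            (φ.relabel a ⊓ ψ.relabel b).Realize (fun z => c z.1) ↔
            φ.Realize (fun z => c z.1) ∧ ψ.Realize (fun z => c z.1) := by
          intro M _ _ c _
          rw [Formula.realize_inf, Formula.realize_relabel, Formula.realize_relabel]
          exact Iff.rfl
        refine ⟨⟨⟨s ∪ t, φ.relabel a ⊓ ψ.relabel b⟩,
          (BoundedFormula.IsQF.relabel h1 _).inf (BoundedFormula.IsQF.relabel h4 _), ?_⟩, ?_⟩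
        · rw [Formula.realize_inf, Formula.realize_relabel, Formula.realize_relabel]
          exact ⟨h2, h5⟩
        · intro M _ _ hM i hi
          letI := (L.lhomWithConstants N).reduct M
          have h6 := Theory.model_union_iff.1 hM
          rw [Theory.model_singleton_iff] at h6
          have h7 : (Formula.equivSentence ((φ.relabel a ⊓ ψ.relabel b).relabel
            Subtype.val)).Realize M := h6.2
          rw [Formula.realize_equivSentence, Formula.realize_relabel] at h7
          have h8 := (key M (fun n => ((L.con n : L[[N]].Constants) : M))).1 h7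
          have h9 : M ⊨ TT ⟨⟨s, φ⟩, h1, h2⟩ := by
            refine Theory.model_union_iff.2 ⟨h6.1, ?_⟩
            rw [Theory.model_singleton_iff]
            change (Formula.equivSentence (φ.relabel Subtype.val)).Realize M
            rw [Formula.realize_equivSentence, Formula.realize_relabel]
            exact h8.1
          have h10 : M ⊨ TT ⟨⟨t, ψ⟩, h4, h5⟩ := by
            refine Theory.model_union_iff.2 ⟨h6.1, ?_⟩
            rw [Theory.model_singleton_iff]
            change (Formula.equivSentence (ψ.relabel Subtype.val)).Realize M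
            rw [Formula.realize_equivSentence, Formula.realize_relabel]
            exact h8.2
          rcases Finset.mem_insert.1 hi with rfl | hi
          · exact h10
          · exact h3 M h9 i hi
    obtain ⟨i₀, h0⟩ := hdir
    obtain ⟨M⟩ := hone i₀
    have hMn : Nonempty M := M.nonempty'
    have hmod : M ⊨ (⋃ i ∈ F, TT i : L[[N]].Theory) := by
      constructor
      intro σ hσ
      simp only [Set.mem_iUnion] at hσ
      obtain ⟨i, hi, hσ⟩ := hσ
      exact (h0 M M.is_model i hi).realize_of_mem σ hσ
    exact Theory.Model.isSatisfiable M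
  obtain ⟨M⟩ := (Theory.isSatisfiable_iUnion_iff_isSatisfiable_iUnion_finset TT).2 hfin
  letI : L.Structure M := (L.lhomWithConstants N).reduct M
  have hMn : Nonempty M := M.nonempty'
  have hMall : ∀ i, M ⊨ TT i := by
    intro i
    constructor
    intro σ hσ
    exact M.is_model.realize_of_mem σ (Set.mem_iUnion.2 ⟨i, hσ⟩)
  have i₁ : ι := ⟨⟨∅, ⊤⟩, BoundedFormula.IsQF.top, Formula.realize_top.2 trivial⟩
  have hT : M ⊨ T := (LHom.onTheory_model (L.lhomWithConstants N) T).1
    (Theory.model_union_iff.1 (hMall i₁)).1
  let c : N → M := fun n => ((L.con n : L[[N]].Constants) : M)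
  have hqf : ∀ (k : ℕ) (φ : L.Formula (Fin k)) (a : Fin k → N), BoundedFormula.IsQF φ →
      φ.Realize a → φ.Realize (c ∘ a) := by
    intro k φ a h1 h2
    let s : Finset N := Finset.univ.image a
    let a' : Fin k → s := fun i => ⟨a i, Finset.mem_image_of_mem _ (Finset.mem_univ _)⟩
    have h3 : (φ.relabel a').Realize (Subtype.val : s → N) := by
      rw [Formula.realize_relabel]
      exact h2
    have h4 := (Theory.model_union_iff.1 (hMall ⟨⟨s, φ.relabel a'⟩,
      BoundedFormula.IsQF.relabel h1 _, h3⟩)).2
    rw [Theory.model_singleton_iff] at h4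
    have h5 : (Formula.equivSentence ((φ.relabel a').relabel Subtype.val)).Realize M := h4
    rw [Formula.realize_equivSentence, Formula.realize_relabel, Formula.realize_relabel] at h5
    exact h5
  have hqf' : ∀ (k : ℕ) (φ : L.Formula (Fin k)) (a : Fin k → N), BoundedFormula.IsQF φ →
      (φ.Realize (c ∘ a) ↔ φ.Realize a) := by
    intro k φ a h1
    refine ⟨fun h2 => ?_, hqf k φ a h1⟩
    by_contra h3
    exact hqf k (∼φ) a h1.not (Formula.realize_not.2 h3) h2
  refine ⟨M, inferInstance, hMn, hT, ⟨⟨⟨c, ?_⟩, ?_, ?_⟩⟩⟩
  · intro a b hab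
    have h1 := (hqf' 2 (Term.equal (Term.var 0) (Term.var 1)) ![a, b]
      (BoundedFormula.IsAtomic.equal _ _).isQF).1 (by
        rw [Formula.realize_equal]
        exact hab)
    rw [Formula.realize_equal] at h1
    exact h1
  · intro n f x
    have h1 := (hqf' (n + 1) (Formula.graph f) (Fin.cons (Structure.funMap f x) x)
      (Formula.isAtomic_graph f).isQF).2 (Formula.realize_graph.2 rfl)
    have h2 : c ∘ (Fin.cons (α := fun _ => N) (Structure.funMap f x) x) =
        Fin.cons (α := fun _ => M) (c (Structure.funMap f x)) (c ∘ x) := by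
      funext j
      refine Fin.cases ?_ (fun j => ?_) j <;> rfl
    rw [h2, Formula.realize_graph] at h1
    exact h1.symm
  · intro n r x
    have h1 := hqf' n (Relations.formula r fun i => Term.var i) x
      (BoundedFormula.IsAtomic.rel _ _).isQF
    rw [Formula.realize_rel, Formula.realize_rel] at h1
    exact h1

end Pool.Agent.H213R3.MC
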