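import Pool.Agent.H213R3.MC.Pair

set_option autoImplicit false

/-!
# The counterexample
-/

namespace Pool.Agent.H213R3.MC

open FirstOrder FirstOrder.Language

universe w

/-- The sentences true in both models. -/
def SS : LSet.Theory := {σ | W1 ⊨ σ ∧ W2 ⊨ σ}

/-- The model companion. -/
def TT : (ext LSet AA).Theory := plus (LSet.completeTheory W2) AA

instance nonempty_W1 : Nonempty W1 := ⟨emp good_W1⟩

instance nonempty_W2 : Nonempty W2 := ⟨emp good_W2⟩

theorem zfc_sub_SS : ZFC ⊆ SS := fun σ hσ =>
  ⟨(good_zfc good_W1).realize_of_mem σ hσ, (good_zfc good_W2).realize_of_mem σ hσ⟩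

theorem SS_sub : SS ⊆ LSet.completeTheory W2 := fun _ hσ => hσ.2

section

variable {N : Type w} [LSet.Structure N] [(ext LSet AA).Structure N]
  [(LHom.sumInl : LSet →ᴸ ext LSet AA).IsExpansionOn N]

theorem models_plus {S : LSet.Theory} : N ⊨ plus S AA ↔ N ⊨ S ∧ MModel AA N := by
  unfold plus
  rw [Theory.model_union_iff, LHom.onTheory_model, models_iff]

end

theorem TT_models_plus (N : Type w) [(ext LSet AA).Structure N] (h : N ⊨ TT) :
    N ⊨ plus SS AA := by
  let _ := (LHom.sumInl : LSet →ᴸ ext LSet AA).reduct N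
  have h1 := models_plus.1 h
  exact models_plus.2 ⟨h1.1.mono SS_sub, h1.2⟩

theorem W2_models : letI := extStr good_W2; (W2 : Type 2) ⊨ TT := by
  let _ := extStr good_W2
  have _ := extStr_expansion good_W2
  exact models_plus.2 ⟨⟨fun σ hσ => hσ⟩, extStr_mmodel good_W2⟩

theorem W1_models : letI := extStr good_W1; (W1 : Type 2) ⊨ plus SS AA := by
  let _ := extStr good_W1
  have _ := extStr_expansion good_W1
  exact models_plus.2 ⟨⟨fun σ hσ => hσ.1⟩, extStr_mmodel good_W1⟩

/-- `TT` is model complete. -/
theorem TT_complete : IsModelComplete.{w} TT := by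
  intro M N _ _ _ _ hM hN f n φ x
  let _ := (LHom.sumInl : LSet →ᴸ ext LSet AA).reduct M
  let _ := (LHom.sumInl : LSet →ᴸ ext LSet AA).reduct N
  have hM' := models_plus.1 hM
  have hN' := models_plus.1 hN
  obtain ⟨ψ, hψ⟩ := exists_formula.{w} φ
  have h1 : φ.Realize (f ∘ x) ↔ Formula.Realize (M := N) ψ (f ∘ x) :=
    (hψ N hN'.2 _ _).symm
  have h2 : φ.Realize x ↔ Formula.Realize (M := M) ψ x := (hψ M hM'.2 _ _).symm
  rw [h1, h2]
  -- it suffices to show that truth is preserved
  have key : ∀ ψ : LSet.Formula (Fin n), ψ.Realize x → Formula.Realize (M := N) ψ (f ∘ x) := by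
    intro ψ hψ
    have hex : (M : Type w) ⊨ (Formula.iExs (Fin 1) (χ.relabel (Sum.inr : Fin 1 → Empty ⊕ Fin 1)) :
        LSet.Sentence) := by
      refine hM'.1.realize_of_mem _ ?_
      change W2 ⊨ (Formula.iExs (Fin 1) (χ.relabel (Sum.inr : Fin 1 → Empty ⊕ Fin 1)) :
        LSet.Sentence)
      unfold Sentence.Realize
      rw [Formula.realize_iExs]
      obtain ⟨y, hy⟩ := exists_chi_W2
      refine ⟨fun _ => y, ?_⟩
      rw [Formula.realize_relabel]
      exact (iff_of_eq (congrArg χ.Realize (by funext i; rfl))).2 hy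
    unfold Sentence.Realize at hex
    rw [Formula.realize_iExs] at hex
    obtain ⟨y, hy⟩ := hex
    rw [Formula.realize_relabel] at hy
    have hy' : χ.Realize (fun _ : Fin 1 => y 0) := by
      refine (iff_of_eq (congrArg χ.Realize ?_)).1 hy
      funext i
      rw [Subsingleton.elim i 0]
      rfl
    have hmem : ((⟨n, chiAnd ψ⟩ : Form LSet), (0 : Fin 2)) ∈ AA := Or.inr ⟨rfl, ψ, rfl⟩
    have h3 : Structure.RelMap (rSym _ hmem) (Fin.cons (α := fun _ => M) (y 0) x) := by
      rw [hM'.2.rel _ hmem, realize_chiAnd]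
      exact ⟨hy', hψ⟩
    have h4 : Structure.RelMap (rSym _ hmem) (f ∘ (Fin.cons (α := fun _ => M) (y 0) x)) :=
      (f.map_rel _ _).2 h3
    rw [hN'.2.rel _ hmem, realize_chiAnd] at h4
    exact h4.2
  constructor
  · intro h
    by_contra hcon
    have := key (∼ψ) (Formula.realize_not.2 hcon)
    exact (Formula.realize_not.1 this) h
  · exact key ψ

theorem univ_TT : univPart TT = univPart (plus SS AA) := by
  ext σ
  constructor
  · rintro ⟨hu, hσ⟩
    refine ⟨hu, ?_⟩
    rw [Theory.models_sentence_iff]
    intro N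
    let _ := (LHom.sumInl : LSet →ᴸ ext LSet AA).reduct N
    have hN := models_plus.1 N.is_model
    by_cases h2 : N ⊨ LSet.completeTheory W2
    · have h3 : N ⊨ TT := models_plus.2 ⟨h2, hN.2⟩
      exact hσ.realize_sentence N
    · -- then it is a model of the theory of the small model
      have h4 : ∃ τ : LSet.Sentence, W2 ⊨ τ ∧ ¬ N ⊨ τ := by
        by_contra hcon
        push Not at hcon
        exact h2 ⟨fun τ hτ => hcon τ hτ⟩
      obtain ⟨τ, hτ, hτN⟩ := h4
      -- truth in the small model
      obtain ⟨ψ, hψ⟩ := exists_sentence σ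
      have h5 : W1 ⊨ ψ := by
        let _ := extStr good_W1
        let _ := extStr good_W2
        have _ := extStr_expansion good_W1
        have _ := extStr_expansion good_W2
        obtain ⟨f⟩ := exists_emb
        have h6 : W2 ⊨ σ := by
          have := W2_models
          exact hσ.realize_sentence W2
        have h7 : W1 ⊨ σ := by
          unfold Sentence.Realize Formula.Realize at h6 ⊢
          refine hu.realize_embedding f (v := default) (xs := default) ?_
          refine (iff_of_eq (congrArg₂ _ ?_ ?_)).1 h6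
          · funext i; exact i.elim
          · funext i; exact i.elim0
        have h8 : W1 ⊨ setMorley AA := models_iff.2 (extStr_mmodel good_W1)
        have h9 := hψ.realize_sentence W1
        unfold Sentence.Realize Formula.Realize at h9
        rw [BoundedFormula.realize_iff] at h9
        have h10 := h9.1 h7
        exact (LHom.realize_onFormula (LHom.sumInl : LSet →ᴸ ext LSet AA) ψ).1 h10
      have h11 : N ⊨ ψ := by
        by_contra hcon
        have h12 : (ψ ⊔ τ : LSet.Sentence) ∈ SS := by
          constructor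
          · exact Formula.realize_sup.2 (Or.inl h5)
          · exact Formula.realize_sup.2 (Or.inr hτ)
        rcases Formula.realize_sup.1 (hN.1.realize_of_mem _ h12) with h13 | h13
        · exact hcon h13
        · exact hτN h13
      have h14 : N ⊨ setMorley AA := models_iff.2 hN.2
      have h15 := hψ.realize_sentence N
      unfold Sentence.Realize Formula.Realize at h15
      rw [BoundedFormula.realize_iff] at h15
      exact h15.2 ((LHom.realize_onFormula (LHom.sumInl : LSet →ᴸ ext LSet AA) ψ).2 h11)
  · rintro ⟨hu, hσ⟩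
    refine ⟨hu, ?_⟩
    rw [Theory.models_sentence_iff]
    intro N
    have := TT_models_plus N N.is_model
    exact hσ.realize_sentence N

theorem TT_companion : IsModelCompanion.{w} TT (plus SS AA) := ⟨univ_TT, TT_complete⟩

/-- the index of the relation symbol for `χ` -/
abbrev chiForm : Form LSet := ⟨0, chiAnd ⊤⟩

theorem chiForm_mem : (chiForm, (0 : Fin 2)) ∈ AA := Or.inr ⟨rfl, ⊤, rfl⟩

/-- the universal sentence: nothing satisfies `χ` -/
def noChi : (ext LSet AA).Sentence :=
  ∀' ∼(Relations.boundedFormula (rSym chiForm chiForm_mem) fun _ => &0)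

theorem noChi_univ : BoundedFormula.IsUniversal noChi :=
  (BoundedFormula.IsAtomic.rel _ _).isQF.not.isUniversal.all

theorem realize_noChi {N : Type w} [(ext LSet AA).Structure N] :
    N ⊨ noChi ↔ ∀ y : N, ¬ Structure.RelMap (rSym chiForm chiForm_mem) (fun _ => y) := by
  unfold noChi Sentence.Realize Formula.Realize
  rw [BoundedFormula.realize_all]
  refine forall_congr' fun y => ?_
  rw [BoundedFormula.realize_not, BoundedFormula.realize_rel]
  exact Iff.rfl

theorem not_AMC (T' : (ext LSet AA).Theory) : ¬ IsAMC.{w} T' (plus SS AA) := by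
  rintro ⟨hb, hc⟩
  -- a model of `T'` in which nothing satisfies `χ`
  have h1 : ¬ T' ⊨ᵇ (∼noChi : (ext LSet AA).Sentence) := by
    intro h
    have h2 : (∼noChi : (ext LSet AA).Sentence) ∈ boolPart (plus SS AA) := by
      rw [← hb]
      exact ⟨.not (.of_universal noChi_univ), h⟩
    let _ := extStr good_W1
    have _ := extStr_expansion good_W1
    have := W1_models
    have h3 := h2.2.realize_sentence W1
    have h4 : ¬ W1 ⊨ noChi := (Sentence.realize_not W1).1 h3
    apply h4
    rw [realize_noChi]
    intro y hy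
    rw [(extStr_mmodel good_W1).rel _ chiForm_mem, realize_chiAnd] at hy
    exact not_chi_W1 y hy.1
  have h2 : (T' ∪ {noChi}).IsSatisfiable := by
    by_contra hcon
    apply h1
    rw [Theory.models_iff_not_satisfiable]
    intro h3
    apply hcon
    obtain ⟨M⟩ := h3
    have h4 := Theory.model_union_iff.1 M.is_model
    have h5 : M ⊨ T' ∪ {noChi} := by
      refine Theory.model_union_iff.2 ⟨h4.1, ?_⟩
      have h6 := h4.2
      rw [Theory.model_singleton_iff] at h6 ⊢
      have h7 := (Sentence.realize_not M).1 h6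
      rw [Sentence.realize_not] at h7
      exact not_not.1 h7
    exact Theory.Model.isSatisfiable M
  obtain ⟨N₀⟩ := h2
  let N₁ := Theory.ModelType.ulift.{0, 0, 0, w} N₀
  have hN₁ := Theory.model_union_iff.1 N₁.is_model
  have hno : N₁ ⊨ noChi := by
    have := hN₁.2
    rwa [Theory.model_singleton_iff] at this
  have hne : Nonempty N₁ := N₁.nonempty'
  -- embed it in a model of `TT`
  obtain ⟨M, _, hMne, hM, ⟨f⟩⟩ := exists_embedding TT N₁ (by
    intro σ hu hσ
    have h3 : σ ∈ univPart (plus SS AA) := by
      rw [← univ_TT]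
      exact ⟨hu, hσ⟩
    have h4 : σ ∈ boolPart T' := by
      rw [hb]
      exact ⟨.of_universal hu, h3.2⟩
    have := hN₁.1
    exact h4.2.realize_sentence N₁)
  -- embed this in a model of `T'`
  obtain ⟨N₂, _, hN₂ne, hN₂, ⟨g⟩⟩ := exists_embedding T' M (by
    intro σ hu hσ
    have h3 : σ ∈ boolPart (plus SS AA) := by
      rw [← hb]
      exact ⟨.of_universal hu, hσ⟩
    have := TT_models_plus M hM
    exact h3.2.realize_sentence M)
  -- the composition is elementary
  have h5 := hc N₁ N₂ hN₁.1 hN₂ (g.comp f) 0 (Formula.relabel (Empty.elim : Empty → Fin 0) noChi)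
    default
  rw [Formula.realize_relabel, Formula.realize_relabel] at h5
  have h6 : N₂ ⊨ noChi := by
    unfold Sentence.Realize at hno ⊢
    have e1 : (default : Empty → N₁) = (default : Fin 0 → N₁) ∘ Empty.elim :=
      Subsingleton.elim _ _
    have e2 : (default : Empty → N₂) = (g.comp f ∘ (default : Fin 0 → N₁)) ∘ Empty.elim :=
      Subsingleton.elim _ _
    rw [e1] at hno
    rw [e2]
    exact h5.2 hno
  -- but some element of `M` satisfies `χ`
  let _ := (LHom.sumInl : LSet →ᴸ ext LSet AA).reduct M
  have hM' := models_plus.1 hM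
  have hex : M ⊨ (Formula.iExs (Fin 1) (χ.relabel (Sum.inr : Fin 1 → Empty ⊕ Fin 1)) :
      LSet.Sentence) := by
    refine hM'.1.realize_of_mem _ ?_
    change W2 ⊨ (Formula.iExs (Fin 1) (χ.relabel (Sum.inr : Fin 1 → Empty ⊕ Fin 1)) :
      LSet.Sentence)
    unfold Sentence.Realize
    rw [Formula.realize_iExs]
    obtain ⟨y, hy⟩ := exists_chi_W2
    refine ⟨fun _ => y, ?_⟩
    rw [Formula.realize_relabel]
    exact (iff_of_eq (congrArg χ.Realize (by funext i; rfl))).2 hy
  unfold Sentence.Realize at hex
  rw [Formula.realize_iExs] at hex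
  obtain ⟨y, hy⟩ := hex
  rw [Formula.realize_relabel] at hy
  have hy' : χ.Realize (fun _ : Fin 1 => y 0) := by
    refine (iff_of_eq (congrArg χ.Realize ?_)).1 hy
    funext i
    rw [Subsingleton.elim i 0]
    rfl
  have h7 : Structure.RelMap (rSym chiForm chiForm_mem) (fun _ => y 0) := by
    rw [hM'.2.rel _ chiForm_mem, realize_chiAnd]
    exact ⟨hy', Formula.realize_top.2 trivial⟩
  have h8 : Structure.RelMap (rSym chiForm chiForm_mem) (g ∘ fun _ => y 0) :=
    (g.map_rel _ _).2 h7
  exact realize_noChi.1 h6 (g (y 0)) h8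

end Pool.Agent.H213R3.MC
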