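import Pool.Agent.H213R3.MC.Defs

set_option autoImplicit false

/-!
# Transitive classes that are closed under the set operations are models of ZFC
-/

namespace Pool.Agent.H213R3.MC

open FirstOrder FirstOrder.Language

universe u

/-- A class of sets as a structure. -/
instance strW (W : Set ZFSet.{u}) : LSet.Structure W where
  funMap := fun f => Empty.elim f
  RelMap := fun {_} r v => match r, v with
    | MemSym.mem, v => (v 0).1 ∈ (v 1).1

section realize

variable {W : Set ZFSet.{u}}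

@[simp] theorem realize_memF {α : Type} {n : ℕ} (t s : LSet.Term (α ⊕ Fin n)) (v : α → W)
    (xs : Fin n → W) : (memF t s).Realize v xs ↔
      (t.realize (Sum.elim v xs)).1 ∈ (s.realize (Sum.elim v xs)).1 := by
  unfold memF
  rw [BoundedFormula.realize_rel₂]
  rfl

end realize

theorem realize_pl {M : Type*} [LSet.Structure M] {m k : ℕ} (φ : LSet.Formula (Fin m))
    (g : Fin m → Fin k) (v : Empty → M) (xs : Fin k → M) :
    (pl φ g).Realize v xs ↔ φ.Realize (xs ∘ g) := by
  unfold pl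
  refine (BoundedFormula.realize_relabel (n := 0) (m := k) (φ := φ)
    (g := fun i => Sum.inr (g i)) (v := v) (xs := xs)).trans ?_
  unfold Formula.Realize
  refine iff_of_eq (congrArg₂ _ ?_ ?_)
  · funext i
    rfl
  · funext i
    exact i.elim0

/-- Transitive classes closed under the set theoretic operations. -/
structure Good (W : Set ZFSet.{u}) : Prop where
  trans : ∀ x ∈ W, ∀ y ∈ x, y ∈ W
  sub : ∀ x ∈ W, ∀ y, y ⊆ x → y ∈ W
  pow : ∀ x ∈ W, ZFSet.powerset x ∈ W
  union : ∀ x ∈ W, ZFSet.sUnion x ∈ W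
  pair : ∀ x ∈ W, ∀ y ∈ W, ({x, y} : ZFSet) ∈ W
  inf : ∃ x ∈ W, ∅ ∈ x ∧ ∀ y ∈ x, insert y y ∈ x
  repl : ∀ x ∈ W, ∀ F : ZFSet → ZFSet, (∀ y ∈ x, F y ∈ W) → ∃ b ∈ W, ∀ y ∈ x, F y ∈ b

section

variable {W : Set ZFSet.{u}} (hW : Good W)

include hW

theorem good_ext : W ⊨ axExt := by
  unfold axExt
  simp only [Sentence.Realize, Formula.Realize, BoundedFormula.realize_all,
    BoundedFormula.realize_imp, BoundedFormula.realize_iff, realize_memF,
    BoundedFormula.realize_bdEqual, Term.realize_var, Function.comp, Sum.elim_inr]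
  intro x y h
  refine Subtype.ext (ZFSet.ext fun z => ?_)
  constructor
  · intro hz
    exact (h ⟨z, hW.trans _ x.2 _ hz⟩).1 hz
  · intro hz
    exact (h ⟨z, hW.trans _ y.2 _ hz⟩).2 hz

theorem good_found : W ⊨ axFound := by
  unfold axFound
  simp only [Sentence.Realize, Formula.Realize, BoundedFormula.realize_all,
    BoundedFormula.realize_imp, BoundedFormula.realize_ex, BoundedFormula.realize_inf,
    BoundedFormula.realize_not, realize_memF, Term.realize_var, Function.comp, Sum.elim_inr]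
  rintro x ⟨y, hy⟩
  obtain ⟨z, hz, hz'⟩ := ZFSet.regularity x.1 (by
    intro h
    have hy' : y.1 ∈ x.1 := hy
    rw [h] at hy'
    exact ZFSet.notMem_empty _ hy')
  refine ⟨⟨z, hW.trans _ x.2 _ hz⟩, hz, fun t ht ht' => ?_⟩
  have : t.1 ∈ x.1 ∩ z := ZFSet.mem_inter.2 ⟨ht, ht'⟩
  rw [hz'] at this
  exact ZFSet.notMem_empty _ this

theorem good_pair : W ⊨ axPair := by
  unfold axPair
  simp only [Sentence.Realize, Formula.Realize, BoundedFormula.realize_all,
    BoundedFormula.realize_iff, BoundedFormula.realize_ex, BoundedFormula.realize_sup,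
    BoundedFormula.realize_bdEqual, realize_memF, Term.realize_var, Function.comp, Sum.elim_inr]
  intro x y
  refine ⟨⟨{x.1, y.1}, hW.pair _ x.2 _ y.2⟩, fun z => ?_⟩
  refine Iff.trans (ZFSet.mem_pair) ?_
  exact or_congr Subtype.ext_iff.symm Subtype.ext_iff.symm

theorem good_union : W ⊨ axUnion := by
  unfold axUnion
  simp only [Sentence.Realize, Formula.Realize, BoundedFormula.realize_all,
    BoundedFormula.realize_iff, BoundedFormula.realize_ex, BoundedFormula.realize_inf,
    realize_memF, Term.realize_var, Function.comp, Sum.elim_inr]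
  intro x
  refine ⟨⟨ZFSet.sUnion x.1, hW.union _ x.2⟩, fun z => ?_⟩
  refine Iff.trans ZFSet.mem_sUnion ?_
  constructor
  · rintro ⟨w, hw, hz⟩
    exact ⟨⟨w, hW.trans _ x.2 _ hw⟩, hw, hz⟩
  · rintro ⟨w, hw, hz⟩
    exact ⟨w.1, hw, hz⟩

theorem good_pow : W ⊨ axPow := by
  unfold axPow
  simp only [Sentence.Realize, Formula.Realize, BoundedFormula.realize_all,
    BoundedFormula.realize_iff, BoundedFormula.realize_ex, BoundedFormula.realize_imp,
    realize_memF, Term.realize_var, Function.comp, Sum.elim_inr]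
  intro x
  refine ⟨⟨ZFSet.powerset x.1, hW.pow _ x.2⟩, fun z => ?_⟩
  refine Iff.trans ZFSet.mem_powerset ?_
  constructor
  · intro h t ht
    exact h ht
  · intro h t ht
    exact h ⟨t, hW.trans _ z.2 _ ht⟩ ht

theorem good_inf : W ⊨ axInf := by
  unfold axInf
  simp only [Sentence.Realize, Formula.Realize, BoundedFormula.realize_all,
    BoundedFormula.realize_iff, BoundedFormula.realize_ex, BoundedFormula.realize_imp,
    BoundedFormula.realize_sup, BoundedFormula.realize_inf, BoundedFormula.realize_not,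
    BoundedFormula.realize_bdEqual, realize_memF, Term.realize_var, Function.comp, Sum.elim_inr]
  obtain ⟨x, hx, h0, hs⟩ := hW.inf
  refine ⟨⟨x, hx⟩, ⟨⟨∅, hW.trans _ hx _ h0⟩, h0, fun t => ZFSet.notMem_empty _⟩, fun y hy => ?_⟩
  refine ⟨⟨insert y.1 y.1, hW.trans _ hx _ (hs _ hy)⟩, hs _ hy, fun z => ?_⟩
  refine Iff.trans ZFSet.mem_insert_iff ?_
  rw [or_comm]
  exact or_congr Iff.rfl Subtype.ext_iff.symm

theorem good_choice : W ⊨ axChoice := by
  classical
  unfold axChoice
  simp only [Sentence.Realize, Formula.Realize, BoundedFormula.realize_all,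
    BoundedFormula.realize_iff, BoundedFormula.realize_ex, BoundedFormula.realize_imp,
    BoundedFormula.realize_inf, BoundedFormula.realize_bdEqual, realize_memF, Term.realize_var,
    Function.comp, Sum.elim_inr]
  rintro x ⟨hne, hdis⟩
  let g : ZFSet → ZFSet := fun y => if h : ∃ z, z ∈ y then h.choose else ∅
  have hg : ∀ y ∈ x.1, g y ∈ y := by
    intro y hy
    obtain ⟨z, hz⟩ := hne ⟨y, hW.trans _ x.2 _ hy⟩ hy
    have h : ∃ z, z ∈ y := ⟨z.1, hz⟩
    simp only [g, dif_pos h]
    exact h.choose_spec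
  have hc : ZFSet.sep (fun t => ∃ y ∈ x.1, t = g y) (ZFSet.sUnion x.1) ∈ W :=
    hW.sub _ (hW.union _ x.2) _ (ZFSet.sep_subset)
  refine ⟨⟨_, hc⟩, fun y hy => ⟨⟨g y.1, hW.trans _ y.2 _ (hg _ hy)⟩, fun w => ?_⟩⟩
  have key : (w.1 ∈ y.1 ∧ w.1 ∈ ZFSet.sep (fun t => ∃ y ∈ x.1, t = g y) (ZFSet.sUnion x.1)) ↔
      w.1 = g y.1 := by
    constructor
    · rintro ⟨h1, h2⟩
      obtain ⟨-, y', hy', h3⟩ := ZFSet.mem_sep.1 h2
      have h4 : w.1 ∈ y' := by
        rw [h3]
        exact hg _ hy'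
      have h5 := hdis y ⟨y', hW.trans _ x.2 _ hy'⟩ ⟨hy, hy', w, h1, h4⟩
      rw [h3]
      have h6 : y.1 = y' := congrArg Subtype.val h5
      rw [h6]
    · intro h
      rw [h]
      exact ⟨hg _ hy, ZFSet.mem_sep.2 ⟨ZFSet.mem_sUnion.2 ⟨y.1, hy, hg _ hy⟩, y.1, hy, rfl⟩⟩
  exact key.trans (Subtype.ext_iff (a1 := w) (a2 := ⟨g y.1, hW.trans _ y.2 _ (hg _ hy)⟩)).symm

theorem good_sep (n : ℕ) (φ : LSet.Formula (Fin (n + 1))) : W ⊨ axSep n φ := by
  unfold axSep
  rw [Sentence.Realize, BoundedFormula.realize_alls]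
  intro p
  rw [BoundedFormula.realize_all]
  intro a
  rw [BoundedFormula.realize_ex]
  refine ⟨⟨ZFSet.sep (fun z => ∃ hz : z ∈ W, φ.Realize (Fin.snoc (α := fun _ => W) p ⟨z, hz⟩)) a.1,
    hW.sub _ a.2 _ ZFSet.sep_subset⟩, ?_⟩
  rw [BoundedFormula.realize_all]
  intro z
  rw [BoundedFormula.realize_iff, BoundedFormula.realize_inf, realize_pl]
  simp only [realize_memF, Term.realize_var, Function.comp, Sum.elim_inr, Fin.snoc_last,
    Fin.snoc_castSucc]
  refine ZFSet.mem_sep.trans (and_congr Iff.rfl ?_)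
  have h : (fun i => (Fin.snoc (Fin.snoc (Fin.snoc p a) (⟨ZFSet.sep (fun z => ∃ hz : z ∈ W,
      φ.Realize (Fin.snoc (α := fun _ => W) p ⟨z, hz⟩)) a.1,
    hW.sub _ a.2 _ ZFSet.sep_subset⟩ : W)) z : Fin (n + 3) → W)
      (Fin.lastCases (Fin.last (n + 2)) (fun i => i.castSucc.castSucc.castSucc) i)) =
      Fin.snoc (α := fun _ => W) p z := by
    funext i
    refine Fin.lastCases ?_ (fun i => ?_) i
    · simp
    · simp
  constructor
  · rintro ⟨hz, h1⟩
    exact (iff_of_eq (congrArg φ.Realize h)).2 h1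
  · intro h1
    exact ⟨z.2, (iff_of_eq (congrArg φ.Realize h)).1 h1⟩

theorem good_repl (n : ℕ) (φ : LSet.Formula (Fin (n + 2))) : W ⊨ axRepl n φ := by
  classical
  unfold axRepl
  rw [Sentence.Realize, BoundedFormula.realize_alls]
  intro p
  rw [BoundedFormula.realize_all]
  intro a
  rw [BoundedFormula.realize_imp, BoundedFormula.realize_all]
  intro hyp
  -- the relation
  let R : W → W → Prop := fun u v => φ.Realize (Fin.snoc (α := fun _ => W)
    (Fin.snoc (α := fun _ => W) p u) v)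
  have hyp' : ∀ u : W, u.1 ∈ a.1 → ∃ v : W, R u v ∧ ∀ v' : W, R u v' → v' = v := by
    intro u hu
    have h1 := hyp u
    rw [BoundedFormula.realize_imp, BoundedFormula.realize_ex] at h1
    simp only [realize_memF, Term.realize_var, Function.comp, Sum.elim_inr, Fin.snoc_last,
      Fin.snoc_castSucc] at h1
    obtain ⟨v, hv⟩ := h1 hu
    rw [BoundedFormula.realize_inf, realize_pl, BoundedFormula.realize_all] at hv
    refine ⟨v, ?_, fun v' hv' => ?_⟩
    · refine (iff_of_eq (congrArg φ.Realize ?_)).1 hv.1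
      funext i
      refine Fin.lastCases ?_ (fun i => ?_) i
      · simp
      · refine Fin.lastCases ?_ (fun i => ?_) i
        · simp
        · simp
    · have h2 := hv.2 v'
      rw [BoundedFormula.realize_imp, realize_pl, BoundedFormula.realize_bdEqual] at h2
      simp only [Term.realize_var, Function.comp, Sum.elim_inr, Fin.snoc_last,
        Fin.snoc_castSucc] at h2
      refine h2 ((iff_of_eq (congrArg φ.Realize ?_)).2 hv')
      funext i
      refine Fin.lastCases ?_ (fun i => ?_) i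
      · simp
      · refine Fin.lastCases ?_ (fun i => ?_) i
        · simp
        · simp
  let F : ZFSet → ZFSet := fun u => if h : ∃ (v : W) (hu : u ∈ W), R ⟨u, hu⟩ v then h.choose.1 else ∅
  have hF : ∀ (u : W), u.1 ∈ a.1 → ∀ v : W, R u v → F u.1 = v.1 := by
    intro u hu v hv
    have h : ∃ (v : W) (hu : u.1 ∈ W), R ⟨u.1, hu⟩ v := ⟨v, u.2, hv⟩
    have h1 : F u.1 = h.choose.1 := dif_pos h
    obtain ⟨hu', h2⟩ := h.choose_spec
    obtain ⟨v0, -, hv0⟩ := hyp' u hu
    rw [h1, hv0 _ h2, hv0 v hv]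
  obtain ⟨b, hb, hb'⟩ := hW.repl a.1 a.2 F (fun u hu => by
    obtain ⟨v, hv, -⟩ := hyp' ⟨u, hW.trans _ a.2 _ hu⟩ hu
    rw [hF ⟨u, hW.trans _ a.2 _ hu⟩ hu v hv]
    exact v.2)
  have hc : ZFSet.sep (fun v => ∃ (hv : v ∈ W) (u : W), u.1 ∈ a.1 ∧ R u ⟨v, hv⟩) b ∈ W :=
    hW.sub _ hb _ ZFSet.sep_subset
  rw [BoundedFormula.realize_ex]
  refine ⟨⟨_, hc⟩, ?_⟩
  rw [BoundedFormula.realize_all]
  intro v
  rw [BoundedFormula.realize_iff, BoundedFormula.realize_ex]
  simp only [realize_memF, Term.realize_var, Function.comp, Sum.elim_inr, Fin.snoc_last,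
    Fin.snoc_castSucc]
  have hR : ∀ u : W, (BoundedFormula.Realize (mm (Fin.last (n + 3)) (Fin.last n).castSucc.castSucc.castSucc ⊓
        pl φ (Fin.lastCases (Fin.last (n + 2)).castSucc
          (Fin.lastCases (Fin.last (n + 3)) fun i => i.castSucc.castSucc.castSucc.castSucc)))
        (default : Empty → W) (Fin.snoc (Fin.snoc (Fin.snoc (Fin.snoc p a) ⟨_, hc⟩) v) u)) ↔
        u.1 ∈ a.1 ∧ R u v := by
    intro u
    rw [BoundedFormula.realize_inf, realize_pl]
    simp only [realize_memF, Term.realize_var, Function.comp, Sum.elim_inr, Fin.snoc_last,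
      Fin.snoc_castSucc]
    refine and_congr Iff.rfl (iff_of_eq (congrArg φ.Realize ?_))
    funext i
    refine Fin.lastCases ?_ (fun i => ?_) i
    · simp
    · refine Fin.lastCases ?_ (fun i => ?_) i
      · simp
      · simp
  refine Iff.trans ?_ (exists_congr hR).symm
  constructor
  · intro h
    obtain ⟨-, hv, u, hu, hR'⟩ := ZFSet.mem_sep.1 h
    exact ⟨u, hu, hR'⟩
  · rintro ⟨u, hu, hR'⟩
    refine ZFSet.mem_sep.2 ⟨?_, v.2, u, hu, hR'⟩
    rw [← hF u hu v hR']
    exact hb' _ hu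

theorem good_zfc : W ⊨ ZFC := by
  constructor
  intro σ hσ
  rcases hσ with hσ | ⟨n, φ, rfl⟩ | ⟨n, φ, rfl⟩
  · simp only [Set.mem_insert_iff, Set.mem_singleton_iff] at hσ
    rcases hσ with rfl | rfl | rfl | rfl | rfl | rfl | rfl
    · exact good_ext hW
    · exact good_found hW
    · exact good_pair hW
    · exact good_union hW
    · exact good_pow hW
    · exact good_inf hW
    · exact good_choice hW
  · exact good_sep hW n φ
  · exact good_repl hW n φ

end

end Pool.Agent.H213R3.MC
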