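import Pool.Agent.H213R3.MC.Defs

set_option autoImplicit false

/-!
# Semantics of the partial Morleyization; translation of formulas
-/

namespace Pool.Agent.H213R3.MC

open FirstOrder FirstOrder.Language

universe w

theorem realize_close {L : FirstOrder.Language.{0, 0}} {M : Type w} [L.Structure M] {n : ℕ}
    (φ : L.Formula (Fin n)) : M ⊨ close φ ↔ ∀ x : Fin n → M, φ.Realize x := by
  unfold close Sentence.Realize
  rw [Formula.realize_iAlls]
  refine forall_congr' fun x => ?_
  rw [Formula.realize_relabel]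
  exact iff_of_eq (congrArg φ.Realize (by funext i; rfl))

theorem elim_cases {M : Type w} {n : ℕ} (x : Fin n → M) (i : Fin 1 → M) :
    (fun a => Sum.elim x i (Fin.cases (Sum.inr 0) Sum.inl a : Fin n ⊕ Fin 1)) =
      Fin.cons (α := fun _ => M) (i 0) x := by
  funext a
  refine Fin.cases ?_ (fun a => ?_) a
  · rfl
  · rfl

theorem realize_uniq {L : FirstOrder.Language.{0, 0}} {M : Type w} [L.Structure M] {n : ℕ}
    (φ : L.Formula (Fin (n + 1))) (x : Fin n → M) :
    (uniq φ).Realize x ↔ ∃! y, φ.Realize (Fin.cons (α := fun _ => M) y x) := by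
  unfold uniq
  rw [Formula.realize_iExsUnique]
  simp only [Formula.realize_relabel]
  have h : ∀ i : Fin 1 → M, φ.Realize ((fun a => Sum.elim x i a) ∘
      (Fin.cases (Sum.inr 0) Sum.inl : Fin (n + 1) → Fin n ⊕ Fin 1)) ↔
      φ.Realize (Fin.cons (α := fun _ => M) (i 0) x) := fun i =>
    iff_of_eq (congrArg φ.Realize (elim_cases x i))
  constructor
  · rintro ⟨i, hi, hu⟩
    refine ⟨i 0, (h i).1 hi, fun y hy => ?_⟩
    have := hu (fun _ => y) ((h fun _ => y).2 hy)
    exact congrFun this 0
  · rintro ⟨y, hy, hu⟩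
    refine ⟨fun _ => y, (h fun _ => y).2 hy, fun i hi => ?_⟩
    funext j
    rw [Subsingleton.elim j 0]
    exact hu _ ((h i).1 hi)

/-- The atomic relation of membership. -/
def El {M : Type w} [LSet.Structure M] (a b : M) : Prop :=
  Structure.RelMap (L := LSet) (n := 2) MemSym.mem ![a, b]

theorem realize_memF' {M : Type w} [LSet.Structure M] {α : Type} {n : ℕ}
    (t s : LSet.Term (α ⊕ Fin n)) (v : α → M) (xs : Fin n → M) :
    (memF t s).Realize v xs ↔ El (t.realize (Sum.elim v xs)) (s.realize (Sum.elim v xs)) := by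
  unfold memF
  rw [BoundedFormula.realize_rel₂]
  rfl

section

variable {A : Set (Form LSet × Fin 2)} {N : Type w} [LSet.Structure N]
  [(ext LSet A).Structure N] [(LHom.sumInl : LSet →ᴸ ext LSet A).IsExpansionOn N]

theorem realize_up {α : Type} (φ : LSet.Formula α) (x : α → N) :
    (up A φ).Realize x ↔ φ.Realize x :=
  LHom.realize_onFormula _ _

/-- The semantic form of `T_{∈,A}`. -/
structure MModel (A : Set (Form LSet × Fin 2)) (N : Type w) [LSet.Structure N]
    [(ext LSet A).Structure N] : Prop where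
  rel : ∀ (φ : Form LSet) (h : (φ, 0) ∈ A) (x : Fin (φ.1 + 1) → N),
    Structure.RelMap (rSym φ h) x ↔ φ.2.Realize x
  fn : ∀ (φ : Form LSet) (h : (φ, 1) ∈ A) (x : Fin φ.1 → N) (y : N),
    Structure.funMap (fSym φ h) x = y ↔
      ((∃! z, φ.2.Realize (Fin.cons (α := fun _ => N) z x)) ∧
        φ.2.Realize (Fin.cons (α := fun _ => N) y x)) ∨
      ((¬ ∃! z, φ.2.Realize (Fin.cons (α := fun _ => N) z x)) ∧ ∀ z, ¬ El z y)
  cst : ∀ (h : ∃ φ : Form LSet, (φ, 1) ∈ A) (x : Fin 0 → N) (y : N),
    Structure.funMap (cSym h) x = y ↔ ∀ z, ¬ El z y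

theorem realize_ax0 (φ : Form LSet) (h : (φ, 0) ∈ A) : N ⊨ ax0 φ h ↔
    ∀ x : Fin (φ.1 + 1) → N, Structure.RelMap (rSym φ h) x ↔ φ.2.Realize x := by
  unfold ax0
  rw [realize_close]
  refine forall_congr' fun x => ?_
  rw [Formula.realize_iff, realize_up, Formula.realize_rel]
  exact ⟨fun h => h.symm, fun h => h.symm⟩

theorem realize_ax1 (φ : Form LSet) (h : (φ, 1) ∈ A) : N ⊨ ax1 φ h ↔
    ∀ x : Fin φ.1 → N, ((∃! z, φ.2.Realize (Fin.cons (α := fun _ => N) z x)) →
        φ.2.Realize (Fin.cons (α := fun _ => N) (Structure.funMap (fSym φ h) x) x)) ∧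
      ((¬ ∃! z, φ.2.Realize (Fin.cons (α := fun _ => N) z x)) →
        Structure.funMap (fSym φ h) x = Structure.funMap (cSym ⟨φ, h⟩) (default : Fin 0 → N)) := by
  unfold ax1
  rw [realize_close]
  refine forall_congr' fun x => ?_
  rw [Formula.realize_inf, Formula.realize_imp, Formula.realize_imp, Formula.realize_not,
    realize_uniq]
  have h1 : (∃! y, (up A φ.2).Realize (Fin.cons (α := fun _ => N) y x)) ↔
      ∃! y, φ.2.Realize (Fin.cons (α := fun _ => N) y x) := by
    simp only [realize_up]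
  rw [h1]
  refine and_congr (imp_congr Iff.rfl ?_) (imp_congr Iff.rfl ?_)
  · unfold Formula.Realize
    rw [BoundedFormula.realize_subst]
    refine Iff.trans ?_ (realize_up (A := A) (N := N) φ.2 _)
    unfold Formula.Realize
    refine iff_of_eq (congrArg₂ _ ?_ rfl)
    funext a
    refine Fin.cases ?_ (fun a => ?_) a
    · rfl
    · rfl
  · rw [Formula.realize_equal]
    refine iff_of_eq (congrArg₂ _ rfl ?_)
    change Structure.funMap (cSym ⟨φ, h⟩) _ = _
    exact congrArg _ (Subsingleton.elim _ _)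

theorem realize_axEmpty (h : ∃ φ : Form LSet, (φ, 1) ∈ A) : N ⊨ axEmpty h ↔
    ∀ y : N, (∀ z, ¬ El z y) ↔ y = Structure.funMap (cSym h) (default : Fin 0 → N) := by
  unfold axEmpty Sentence.Realize Formula.Realize
  rw [BoundedFormula.realize_all]
  refine forall_congr' fun y => ?_
  rw [BoundedFormula.realize_iff, LHom.realize_onBoundedFormula, BoundedFormula.realize_all,
    BoundedFormula.realize_bdEqual]
  refine iff_congr (forall_congr' fun z => ?_) (iff_of_eq (congrArg₂ _ rfl ?_))
  · rw [BoundedFormula.realize_not, realize_memF']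
    exact Iff.rfl
  · change Structure.funMap (cSym h) _ = _
    exact congrArg _ (Subsingleton.elim _ _)

theorem models_iff : N ⊨ setMorley A ↔ MModel A N := by
  constructor
  · intro hN
    have hc : ∀ (h : ∃ φ : Form LSet, (φ, 1) ∈ A) (x : Fin 0 → N) (y : N),
        Structure.funMap (cSym h) x = y ↔ ∀ z, ¬ El z y := by
      intro h x y
      have h1 := (realize_axEmpty h).1 (hN.realize_of_mem _ (Or.inr ⟨h, rfl⟩)) y
      rw [h1, Subsingleton.elim x default]
      exact eq_comm
    refine ⟨fun φ h => (realize_ax0 φ h).1 (hN.realize_of_mem _ (Or.inl (Or.inl ⟨φ, h, rfl⟩))),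
      fun φ h x y => ?_, hc⟩
    have h1 := (realize_ax1 φ h).1 (hN.realize_of_mem _ (Or.inl (Or.inr ⟨φ, h, rfl⟩))) x
    by_cases h2 : ∃! z, φ.2.Realize (Fin.cons (α := fun _ => N) z x)
    · simp only [h2, true_and, not_true_eq_false, false_and, or_false]
      constructor
      · rintro rfl
        exact h1.1 h2
      · intro h3
        exact h2.unique (h1.1 h2) h3
    · simp only [h2, false_and, not_false_eq_true, true_and, false_or]
      rw [h1.2 h2]
      exact hc ⟨φ, h⟩ _ _
  · intro hN
    constructor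
    rintro σ ((⟨φ, h, rfl⟩ | ⟨φ, h, rfl⟩) | ⟨h, rfl⟩)
    · exact (realize_ax0 φ h).2 (hN.rel φ h)
    · refine (realize_ax1 φ h).2 fun x => ⟨fun h2 => ?_, fun h2 => ?_⟩
      · rcases (hN.fn φ h x _).1 rfl with h3 | h3
        · exact h3.2
        · exact absurd h2 h3.1
      · rcases (hN.fn φ h x _).1 rfl with h3 | h3
        · exact absurd h3.1 h2
        · exact ((hN.cst ⟨φ, h⟩ default _).2 h3.2).symm
    · refine (realize_axEmpty h).2 fun y => ?_
      rw [← hN.cst h default y]
      exact eq_comm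

end

end Pool.Agent.H213R3.MC
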