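import Pool.Agent.H213R3.MC.Morley

set_option autoImplicit false

/-!
# Every formula of the Morleyized language is equivalent to an `∈`-formula
-/

namespace Pool.Agent.H213R3.MC

open FirstOrder FirstOrder.Language

universe w

/-- the formula: `s` is empty -/
def isEmp {β : Type} (s : β) : LSet.Formula β :=
  ∀' ∼(memF (&0) (Term.var (Sum.inl s)))

theorem realize_isEmp {β : Type} {N : Type w} [LSet.Structure N] (s : β) (v : β → N) :
    (isEmp s).Realize v ↔ ∀ z, ¬ El z (v s) := by
  unfold isEmp Formula.Realize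
  rw [BoundedFormula.realize_all]
  refine forall_congr' fun z => ?_
  rw [BoundedFormula.realize_not, realize_memF']
  exact Iff.rfl

/-- composition -/
noncomputable def comp {β γ : Type} {k : ℕ} (G : Fin k → LSet.Formula (β ⊕ Fin 1))
    (Γ : LSet.Formula (Fin k ⊕ γ)) : LSet.Formula (β ⊕ γ) :=
  Formula.iExs (Fin k)
    ((Formula.iInf fun i => (G i).relabel
      (Sum.elim (fun b => Sum.inl (Sum.inl b)) (fun _ => Sum.inr i) :
        β ⊕ Fin 1 → (β ⊕ γ) ⊕ Fin k)) ⊓
    Γ.relabel (Sum.elim Sum.inr (fun c => Sum.inl (Sum.inr c)) : Fin k ⊕ γ → (β ⊕ γ) ⊕ Fin k))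

theorem realize_comp {β γ : Type} {k : ℕ} {N : Type w} [LSet.Structure N]
    (G : Fin k → LSet.Formula (β ⊕ Fin 1)) (Γ : LSet.Formula (Fin k ⊕ γ)) (v : β → N) (y : γ → N)
    (t : Fin k → N) (hG : ∀ i z, (G i).Realize (Sum.elim v fun _ => z) ↔ t i = z) :
    (comp G Γ).Realize (Sum.elim v y) ↔ Γ.Realize (Sum.elim t y) := by
  unfold comp
  rw [Formula.realize_iExs]
  simp only [Formula.realize_inf, Formula.realize_iInf, Formula.realize_relabel]
  have h1 : ∀ (z : Fin k → N) (i : Fin k), (G i).Realize ((fun a => Sum.elim (Sum.elim v y) z a) ∘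
      (Sum.elim (fun b => Sum.inl (Sum.inl b)) (fun _ => Sum.inr i) :
        β ⊕ Fin 1 → (β ⊕ γ) ⊕ Fin k)) ↔ t i = z i := by
    intro z i
    rw [← hG i (z i)]
    refine iff_of_eq (congrArg (G i).Realize ?_)
    funext a
    rcases a with a | a <;> rfl
  have h2 : ∀ (z : Fin k → N), Γ.Realize ((fun a => Sum.elim (Sum.elim v y) z a) ∘
      (Sum.elim Sum.inr (fun c => Sum.inl (Sum.inr c)) : Fin k ⊕ γ → (β ⊕ γ) ⊕ Fin k)) ↔
      Γ.Realize (Sum.elim z y) := by
    intro z
    refine iff_of_eq (congrArg Γ.Realize ?_)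
    funext a
    rcases a with a | a <;> rfl
  constructor
  · rintro ⟨z, h3, h4⟩
    have : t = z := funext fun i => (h1 z i).1 (h3 i)
    rw [this]
    exact (h2 z).1 h4
  · intro h3
    exact ⟨t, fun i => (h1 t i).2 rfl, (h2 t).2 h3⟩

/-- the graph of `f_φ` -/
noncomputable def graphF (φ : Form LSet) : LSet.Formula (Fin φ.1 ⊕ Fin 1) :=
  ((uniq φ.2).relabel Sum.inl ⊓
    φ.2.relabel (Fin.cases (Sum.inr 0) Sum.inl : Fin (φ.1 + 1) → Fin φ.1 ⊕ Fin 1)) ⊔
  (∼((uniq φ.2).relabel Sum.inl) ⊓ isEmp (Sum.inr 0))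

theorem realize_graphF {N : Type w} [LSet.Structure N] (φ : Form LSet) (x : Fin φ.1 → N)
    (y : Fin 1 → N) : (graphF φ).Realize (Sum.elim x y) ↔
      ((∃! z, φ.2.Realize (Fin.cons (α := fun _ => N) z x)) ∧
        φ.2.Realize (Fin.cons (α := fun _ => N) (y 0) x)) ∨
      ((¬ ∃! z, φ.2.Realize (Fin.cons (α := fun _ => N) z x)) ∧ ∀ z, ¬ El z (y 0)) := by
  unfold graphF
  rw [Formula.realize_sup, Formula.realize_inf, Formula.realize_inf, Formula.realize_not,
    Formula.realize_relabel, Formula.realize_relabel, realize_isEmp, Sum.elim_comp_inl,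
    realize_uniq]
  refine or_congr (and_congr Iff.rfl (iff_of_eq (congrArg φ.2.Realize ?_))) Iff.rfl
  exact elim_cases x y

section

variable {A : Set (Form LSet × Fin 2)}

/-- Terms have definable graphs. -/
theorem exists_term {β : Type} (t : (ext LSet A).Term β) :
    ∃ G : LSet.Formula (β ⊕ Fin 1), ∀ (N : Type w) [LSet.Structure N]
      [(ext LSet A).Structure N] [(LHom.sumInl : LSet →ᴸ ext LSet A).IsExpansionOn N],
      MModel A N → ∀ (v : β → N) (y : N), G.Realize (Sum.elim v fun _ => y) ↔ t.realize v = y := by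
  induction t with
  | var a =>
    refine ⟨Term.equal (Term.var (Sum.inl a)) (Term.var (Sum.inr 0)), ?_⟩
    intro N _ _ _ _ v y
    rw [Formula.realize_equal]
    exact Iff.rfl
  | @func k f ts ih =>
    choose G hG using ih
    rcases f with f | f
    · exact Empty.elim f
    · cases f with
      | fn φ h =>
        refine ⟨comp G (graphF φ), ?_⟩
        intro N _ _ _ hN v y
        rw [realize_comp G (graphF φ) v (fun _ => y) (fun i => (ts i).realize v)
          (fun i z => hG i N hN v z), realize_graphF]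
        exact (hN.fn φ h _ y).symm
      | cst h =>
        refine ⟨isEmp (Sum.inr 0), ?_⟩
        intro N _ _ _ hN v y
        rw [realize_isEmp]
        exact (hN.cst h _ y).symm

/-- A formula in the variables `α ⊕ Fin n` as a bounded formula. -/
def toB {α : Type} {n : ℕ} (G : LSet.Formula (α ⊕ Fin n)) : LSet.BoundedFormula α n :=
  BoundedFormula.relabel (n := n) id G

theorem realize_toB {α : Type} {n : ℕ} {N : Type w} [LSet.Structure N]
    (G : LSet.Formula (α ⊕ Fin n)) (v : α → N) (xs : Fin n → N) :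
    (toB G).Realize v xs ↔ G.Realize (Sum.elim v xs) := by
  unfold toB
  refine (BoundedFormula.realize_relabel (n := 0) (m := n) (φ := G)
    (g := id) (v := v) (xs := xs)).trans ?_
  unfold Formula.Realize
  refine iff_of_eq (congrArg₂ _ ?_ ?_)
  · rfl
  · funext i
    exact i.elim0

/-- Formulas of the Morleyized language are equivalent to `∈`-formulas. -/
theorem exists_formula {α : Type} {n : ℕ} (θ : (ext LSet A).BoundedFormula α n) :
    ∃ ψ : LSet.BoundedFormula α n, ∀ (N : Type w) [LSet.Structure N]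
      [(ext LSet A).Structure N] [(LHom.sumInl : LSet →ᴸ ext LSet A).IsExpansionOn N],
      MModel A N → ∀ (v : α → N) (xs : Fin n → N), ψ.Realize v xs ↔ θ.Realize v xs := by
  induction θ with
  | falsum => exact ⟨⊥, fun _ _ _ _ _ _ _ => Iff.rfl⟩
  | @equal n t₁ t₂ =>
    obtain ⟨G₁, h₁⟩ := exists_term.{w} t₁
    obtain ⟨G₂, h₂⟩ := exists_term.{w} t₂
    refine ⟨toB (Formula.iExs (Fin 1) (G₁ ⊓ G₂)), ?_⟩
    intro N _ _ _ hN v xs
    rw [realize_toB, Formula.realize_iExs]
    have h3 : ∀ i : Fin 1 → N, (G₁ ⊓ G₂).Realize (fun a => Sum.elim (Sum.elim v xs) i a) ↔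
        t₁.realize (Sum.elim v xs) = i 0 ∧ t₂.realize (Sum.elim v xs) = i 0 := by
      intro i
      have hi : i = fun _ => i 0 := by
        funext j
        rw [Subsingleton.elim j 0]
      rw [Formula.realize_inf, ← h₁ N hN, ← h₂ N hN, ← hi]
    simp only [h3]
    constructor
    · rintro ⟨i, h4, h5⟩
      exact h4.trans h5.symm
    · intro h
      exact ⟨fun _ => t₂.realize (Sum.elim v xs), h, rfl⟩
  | @rel n k r ts =>
    choose G hG using fun i => exists_term.{w} (ts i)
    rcases r with r | r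
    · cases r with
      | mem =>
        refine ⟨toB ((comp (γ := Empty) G (Relations.formula (MemSym.mem : LSet.Relations 2)
          fun i => Term.var (Sum.inl i))).relabel (Sum.elim id Empty.elim)), ?_⟩
        intro N _ _ _ hN v xs
        rw [realize_toB, Formula.realize_relabel]
        have h1 : (Sum.elim v xs ∘ Sum.elim id Empty.elim : (α ⊕ Fin n) ⊕ Empty → N) =
            Sum.elim (Sum.elim v xs) Empty.elim := by
          funext a
          rcases a with a | a
          · rfl
          · exact a.elim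
        rw [h1, realize_comp G _ (Sum.elim v xs) _ (fun i => (ts i).realize (Sum.elim v xs))
          (fun i z => hG i N hN _ z), Formula.realize_rel]
        refine iff_of_eq ?_
        exact ((LHom.sumInl : LSet →ᴸ ext LSet A).map_onRelation (M := N)
          (MemSym.mem : LSet.Relations 2) _).symm
    · cases r with
      | rel φ h =>
        refine ⟨toB ((comp (γ := Empty) G (φ.2.relabel Sum.inl)).relabel
          (Sum.elim id Empty.elim)), ?_⟩
        intro N _ _ _ hN v xs
        rw [realize_toB, Formula.realize_relabel]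
        have h1 : (Sum.elim v xs ∘ Sum.elim id Empty.elim : (α ⊕ Fin n) ⊕ Empty → N) =
            Sum.elim (Sum.elim v xs) Empty.elim := by
          funext a
          rcases a with a | a
          · rfl
          · exact a.elim
        rw [h1, realize_comp G _ (Sum.elim v xs) _ (fun i => (ts i).realize (Sum.elim v xs))
          (fun i z => hG i N hN _ z), Formula.realize_relabel, Sum.elim_comp_inl]
        exact (hN.rel φ h _).symm
  | imp _ _ ih₁ ih₂ =>
    obtain ⟨ψ₁, h₁⟩ := ih₁
    obtain ⟨ψ₂, h₂⟩ := ih₂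
    refine ⟨ψ₁ ⟹ ψ₂, fun N _ _ _ hN v xs => ?_⟩
    rw [BoundedFormula.realize_imp, BoundedFormula.realize_imp, h₁ N hN, h₂ N hN]
  | all _ ih =>
    obtain ⟨ψ, h⟩ := ih
    refine ⟨∀' ψ, fun N _ _ _ hN v xs => ?_⟩
    rw [BoundedFormula.realize_all, BoundedFormula.realize_all]
    exact forall_congr' fun x => h N hN v _

/-- The syntactic form of the translation. -/
theorem exists_sentence (θ : (ext LSet A).Sentence) :
    ∃ ψ : LSet.Sentence, setMorley A ⊨ᵇ
      (θ ⇔ (LHom.sumInl : LSet →ᴸ ext LSet A).onSentence ψ) := by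
  obtain ⟨ψ, hψ⟩ := exists_formula.{0} θ
  refine ⟨ψ, ?_⟩
  intro N v xs
  letI := (LHom.sumInl : LSet →ᴸ ext LSet A).reduct N
  rw [BoundedFormula.realize_iff]
  have h1 := hψ N ((models_iff (A := A) (N := N)).1 N.is_model) v xs
  rw [← h1]
  exact (LHom.realize_onBoundedFormula _ ψ).symm

end

end Pool.Agent.H213R3.MC
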