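import Pool.Agent.H213R3.MC.Univ
import Pool.Agent.H213R3.MC.Trans
import Pool.Agent.H213R3.MC.Embed

set_option autoImplicit false

/-!
# The pair of models and the Morleyized structures
-/

namespace Pool.Agent.H213R3.MC

open FirstOrder FirstOrder.Language

universe w

/-- There is an `∈`-minimal universe. -/
theorem exists_least : ∃ y : ZFSet.{1}, GU y ∧ ∀ z ∈ y, ¬ GU z := by
  obtain ⟨y, hy, hmin⟩ := ZFSet.mem_wf.has_min {y : ZFSet.{1} | GU y} exists_GU.{0}
  exact ⟨y, hy, fun z hz hz' => hmin z hz' hz⟩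

/-- the least universe -/
noncomputable def U0 : ZFSet.{1} := exists_least.choose

theorem U0_gu : GU U0 := exists_least.choose_spec.1

theorem U0_min : ∀ z ∈ U0, ¬ GU z := exists_least.choose_spec.2

/-- the small model -/
abbrev W1 : Set ZFSet.{1} := {x | x ∈ U0}

/-- the big model -/
abbrev W2 : Set ZFSet.{1} := Set.univ

theorem W1_sub : W1 ⊆ W2 := fun _ _ => Set.mem_univ _

/-- the inclusion -/
abbrev incl (x : W1) : W2 := Set.inclusion W1_sub x

theorem chi_up (y : W1) (h : χ.Realize (fun _ : Fin 1 => y)) :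
    χ.Realize (fun _ : Fin 1 => incl y) := by
  unfold χ Formula.Realize at h ⊢
  rw [BoundedFormula.realize_all] at h ⊢
  intro r
  rw [BoundedFormula.realize_imp]
  intro hr
  have hry : r.1 ⊆ y.1 := by
    intro t ht
    rw [BoundedFormula.realize_all] at hr
    have h1 := hr ⟨t, Set.mem_univ _⟩
    rw [BoundedFormula.realize_imp, realize_memF, realize_memF] at h1
    exact h1 ht
  have hrU : r.1 ∈ W1 := U0_gu.sub _ y.2 _ hry
  have h2 := h ⟨r.1, hrU⟩
  rw [BoundedFormula.realize_imp] at h2
  have hsn : (Fin.snoc (α := fun _ => W2) (default : Fin 0 → W2) r : Fin 1 → W2) =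
      fun i => incl (Fin.snoc (α := fun _ => W1) (default : Fin 0 → W1) ⟨r.1, hrU⟩ i) := by
    funext i
    fin_cases i
    rfl
  rw [hsn] at hr ⊢
  have h3 := (delta0_abs U0_gu.trans W1_sub (φ := ball (vv 0) (mv (vv 1) yy))
    (.ball (vv 0) (.mem _ _)) (fun _ => y)
    (Fin.snoc (α := fun _ => W1) (default : Fin 0 → W1) ⟨r.1, hrU⟩)).1 hr
  exact (delta0_abs U0_gu.trans W1_sub isDelta0_θ (fun _ => y)
    (Fin.snoc (α := fun _ => W1) (default : Fin 0 → W1) ⟨r.1, hrU⟩)).2 (h2 h3)

theorem not_chi_W2 (y : W1) : ¬ χ.Realize (fun _ : Fin 1 => incl y) := fun h =>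
  U0_min y.1 y.2 ((realize_χ y.1).1 h)

theorem not_chi_W1 (y : W1) : ¬ χ.Realize (fun _ : Fin 1 => y) := fun h =>
  not_chi_W2 y (chi_up y h)

theorem exists_chi_W2 : ∃ y : W2, χ.Realize (fun _ : Fin 1 => y) :=
  ⟨⟨U0, Set.mem_univ _⟩, (realize_χ U0).2 U0_gu⟩

/-! ### The set of formulas -/

/-- the formula `χ(x_0) ∧ ψ(x_1, …, x_n)` -/
def chiAnd {n : ℕ} (ψ : LSet.Formula (Fin n)) : LSet.Formula (Fin (n + 1)) :=
  χ.relabel (fun _ => (0 : Fin (n + 1))) ⊓ ψ.relabel Fin.succ

theorem realize_chiAnd {M : Type w} [LSet.Structure M] {n : ℕ} (ψ : LSet.Formula (Fin n))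
    (x : Fin (n + 1) → M) : (chiAnd ψ).Realize x ↔
      χ.Realize (fun _ : Fin 1 => x 0) ∧ ψ.Realize (x ∘ Fin.succ) := by
  unfold chiAnd
  rw [Formula.realize_inf, Formula.realize_relabel, Formula.realize_relabel]
  exact Iff.rfl

/-- the set `A` -/
def AA : Set (Form LSet × Fin 2) :=
  D₀ ∪ {p | p.2 = 0 ∧ ∃ ψ : LSet.Formula (Fin p.1.1), p.1.2 = chiAnd ψ}

/-! ### The Morleyized structures -/

open Classical in
/-- interpretation of the new symbols -/
@[reducible] noncomputable def newStr (A : Set (Form LSet × Fin 2)) (M : Type w) [LSet.Structure M] (c : M) :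
    Structure (⟨NewFun LSet A, NewRel LSet A⟩ : FirstOrder.Language.{0, 0}) M where
  funMap := fun {_} f => match f with
    | NewFun.fn φ _ => fun x =>
      if h : ∃! y, φ.2.Realize (Fin.cons (α := fun _ => M) y x) then h.choose else c
    | NewFun.cst _ => fun _ => c
  RelMap := fun {_} r => match r with
    | NewRel.rel φ _ => fun x => φ.2.Realize x

/-- the empty set of a good class -/
def emp {W : Set ZFSet.{1}} (hW : Good W) : W :=
  ⟨∅, by
    obtain ⟨x, hx, h0, -⟩ := hW.inf
    exact hW.trans x hx _ h0⟩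

theorem emp_spec {W : Set ZFSet.{1}} (hW : Good W) (y : W) :
    emp hW = y ↔ ∀ z : W, ¬ El z y := by
  constructor
  · rintro rfl z hz
    exact ZFSet.notMem_empty _ hz
  · intro h
    refine Subtype.ext ?_
    symm
    rw [show (emp hW).1 = ∅ from rfl, ZFSet.eq_empty]
    intro z hz
    exact h ⟨z, hW.trans _ y.2 _ hz⟩ hz

/-- the Morleyized structure -/
@[reducible] noncomputable def extStr {W : Set ZFSet.{1}} (hW : Good W) :
    (ext LSet AA).Structure W :=
  letI := newStr AA W (emp hW)
  Language.sumStructure LSet _ W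

theorem extStr_expansion {W : Set ZFSet.{1}} (hW : Good W) :
    letI := extStr hW
    (LHom.sumInl : LSet →ᴸ ext LSet AA).IsExpansionOn W := by
  letI := newStr AA W (emp hW)
  exact LHom.sumInl_isExpansionOn W

theorem extStr_mmodel {W : Set ZFSet.{1}} (hW : Good W) :
    letI := extStr hW
    MModel AA W := by
  classical
  letI := extStr hW
  refine ⟨fun φ h x => Iff.rfl, fun φ h x y => ?_, fun h x y => emp_spec hW y⟩
  have h0 : Structure.funMap (fSym φ h) x =
      if h : ∃! y, φ.2.Realize (Fin.cons (α := fun _ => W) y x) then h.choose else emp hW := rfl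
  rw [h0]
  by_cases h2 : ∃! z, φ.2.Realize (Fin.cons (α := fun _ => W) z x)
  · simp only [dif_pos h2, h2, true_and, not_true_eq_false, false_and, or_false]
    constructor
    · rintro rfl
      exact h2.choose_spec.1
    · intro h3
      exact (h2.choose_spec.2 y h3).symm
  · simp only [dif_neg h2, h2, false_and, not_false_eq_true, true_and, false_or]
    exact emp_spec hW y

theorem good_W1 : Good W1 := U0_gu.good

theorem good_W2 : Good W2 := good_univ

theorem uniq_of_D₀ {φ : Form LSet} (h : (φ, 1) ∈ D₀) {W : Set ZFSet.{1}} (hW : Good W)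
    (x : Fin φ.1 → W) : ∃! y, φ.2.Realize (Fin.cons (α := fun _ => W) y x) := by
  have h1 := h.2 rfl
  haveI : Nonempty W := ⟨emp hW⟩
  haveI : W ⊨ ZFC := good_zfc hW
  have h2 : W ⊨ close (uniq φ.2) := h1.realize_sentence W
  rw [realize_close] at h2
  exact (realize_uniq φ.2 x).1 (h2 x)

theorem incl_cons {n : ℕ} (y : W1) (x : Fin n → W1) :
    (fun i => incl (Fin.cons (α := fun _ => W1) y x i)) =
      Fin.cons (α := fun _ => W2) (incl y) (fun i => incl (x i)) := by
  funext i
  refine Fin.cases ?_ (fun i => ?_) i <;> rfl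

theorem delta0_incl {n : ℕ} {φ : LSet.Formula (Fin n)} (hφ : IsDelta0 φ) (x : Fin n → W1) :
    φ.Realize (fun i => incl (x i)) ↔ φ.Realize x := by
  have h := delta0_abs U0_gu.trans W1_sub hφ x (default : Fin 0 → W1)
  unfold Formula.Realize
  rw [← h]
  refine iff_of_eq (congrArg _ ?_)
  funext i
  exact i.elim0

/-- The inclusion of the small model in the big model is an embedding of Morleyized structures. -/
theorem exists_emb : letI := extStr good_W1; letI := extStr good_W2;
    Nonempty (W1 ↪[ext LSet AA] W2) := by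
  classical
  letI := extStr good_W1
  letI := extStr good_W2
  refine ⟨⟨⟨incl, Set.inclusion_injective W1_sub⟩, ?_, ?_⟩⟩
  · intro n f x
    rcases f with f | f
    · exact Empty.elim f
    · cases f with
      | fn φ h =>
        have hD : (φ, 1) ∈ D₀ := by
          rcases h with h | ⟨h, -⟩
          · exact h
          · exact absurd (show (1 : Fin 2) = 0 from h) (by decide)
        change incl (Structure.funMap (fSym φ h) x) = Structure.funMap (fSym φ h) (incl ∘ x)
        symm
        rw [(extStr_mmodel good_W2).fn φ h]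
        left
        refine ⟨uniq_of_D₀ hD good_W2 _, ?_⟩
        have h1 := ((extStr_mmodel good_W1).fn φ h x _).1 rfl
        rcases h1 with h1 | h1
        · have h2 := (delta0_incl hD.1 _).2 h1.2
          rw [incl_cons] at h2
          exact h2
        · exact absurd (uniq_of_D₀ hD good_W1 x) h1.1
      | cst h =>
        change incl (Structure.funMap (cSym h) x) = Structure.funMap (cSym h) (incl ∘ x)
        rfl
  · intro n r x
    rcases r with r | r
    · cases r with
      | mem => exact Iff.rfl
    · cases r with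
      | rel φ h =>
        change Structure.RelMap (rSym φ h) (incl ∘ x) ↔ Structure.RelMap (rSym φ h) x
        rw [(extStr_mmodel good_W2).rel φ h, (extStr_mmodel good_W1).rel φ h]
        rcases h with h | ⟨-, ψ, hψ⟩
        · exact delta0_incl h.1 x
        · have hψ' : φ.2 = chiAnd ψ := hψ
          rw [hψ', realize_chiAnd, realize_chiAnd]
          constructor
          · rintro ⟨h1, -⟩
            exact absurd h1 (not_chi_W2 (x 0))
          · rintro ⟨h1, -⟩
            exact absurd h1 (not_chi_W1 (x 0))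

end Pool.Agent.H213R3.MC
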