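import Pool.Agent.H213R3.MC.ChiSem

set_option autoImplicit false

/-!
# Universes: semantic characterization of `χ`, existence
-/

namespace Pool.Agent.H213R3.MC

open FirstOrder FirstOrder.Language

universe u

theorem GU.pair_mem {y : ZFSet.{u}} (h : GU y) {a b : ZFSet.{u}} (ha : a ∈ y) (hb : b ∈ y) :
    ({a, b} : ZFSet) ∈ y := by
  obtain ⟨p, hp, hap, hbp⟩ := h.pair a ha b hb
  refine h.sub p hp _ ?_
  intro z hz
  rcases ZFSet.mem_pair.1 hz with rfl | rfl
  · exact hap
  · exact hbp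

theorem GU.opair_mem {y : ZFSet.{u}} (h : GU y) {a b : ZFSet.{u}} (ha : a ∈ y) (hb : b ∈ y) :
    ZFSet.pair a b ∈ y := by
  have h1 := h.pair_mem ha ha
  rw [ZFSet.pair_eq_singleton] at h1
  exact h.pair_mem h1 (h.pair_mem ha hb)

theorem realize_χ (y : ZFSet.{u}) :
    χ.Realize (fun _ : Fin 1 => (⟨y, Set.mem_univ _⟩ : (Set.univ : Set ZFSet.{u}))) ↔ GU y := by
  have h0 : χ.Realize (fun _ : Fin 1 => (⟨y, Set.mem_univ _⟩ : (Set.univ : Set ZFSet.{u}))) ↔
      R χ (fun _ => y) Fin.elim0 := by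
    unfold R Formula.Realize
    refine iff_of_eq (congrArg _ ?_)
    funext i
    exact i.elim0
  rw [h0]
  unfold χ
  rw [R_all]
  have h1 : ∀ r : ZFSet.{u}, R ((ball (vv 0) (mv (vv 1) yy)) ⟹ θ) (fun _ : Fin 1 => y)
      (Fin.snoc (α := fun _ => ZFSet.{u}) Fin.elim0 r) ↔
      (r ⊆ y → R θ (fun _ => y) (fun _ => r)) := by
    intro r
    rw [R_imp, R_ball]
    have h2 : (Fin.snoc (α := fun _ => ZFSet.{u}) Fin.elim0 r : Fin 1 → ZFSet.{u}) =
        fun _ => r := by
      funext i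
      fin_cases i
      rfl
    rw [h2]
    refine imp_congr ?_ Iff.rfl
    simp only [R_mv, vv, yy, Sum.elim_inr, Sum.elim_inl]
    exact Iff.rfl
  simp only [h1, R_θ]
  constructor
  · intro h
    obtain ⟨a1, -, a3, a4, a5, a6, -⟩ := h ∅ (ZFSet.empty_subset _)
    have hsub : ∀ z ∈ y, ∀ r, r ⊆ z → r ∈ y := by
      intro z hz r hr
      exact (h r (fun t ht => a1 z hz t (hr ht))).2.1 z hz (fun t ht => hr ht)
    have hpair : ∀ a ∈ y, ∀ b ∈ y, ({a, b} : ZFSet) ∈ y := by
      intro a ha b hb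
      obtain ⟨p, hp, hap, hbp⟩ := a5 a ha b hb
      refine hsub p hp _ ?_
      intro z hz
      rcases ZFSet.mem_pair.1 hz with rfl | rfl
      · exact hap
      · exact hbp
    refine ⟨a1, hsub, ?_, a4, a5, ?_, ?_⟩
    · intro z hz
      obtain ⟨p, hp, h3⟩ := a3 z hz
      exact ⟨p, hp, fun w hw hwz => h3 w hw fun t ht => hwz ht⟩
    · obtain ⟨z, hz, ⟨w, hw, hw0⟩, hs⟩ := a6
      have hw' : w = ∅ := (ZFSet.eq_empty w).2 hw0
      refine ⟨z, hz, hw' ▸ hw, fun w hw => ?_⟩
      obtain ⟨s, hs, hs1, hs2, hs3⟩ := hs w hw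
      have : s = insert w w := by
        ext t
        rw [ZFSet.mem_insert_iff]
        constructor
        · intro ht
          rcases hs1 t ht with h | h
          · exact Or.inr h
          · exact Or.inl h
        · rintro (rfl | h)
          · exact hs3
          · exact hs2 t h
      rwa [← this]
    · intro z hz F hF
      have hop : ∀ t ∈ z, ZFSet.pair t (F t) ∈ y := by
        intro t ht
        have ht' := a1 z hz t ht
        have h1 := hpair t ht' t ht'
        rw [ZFSet.pair_eq_singleton] at h1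
        exact hpair _ h1 _ (hpair _ ht' _ (hF t ht))
      have hr : ∀ t s, t ∈ z → (ZFSet.pair t s ∈
          ZFSet.sep (fun p => ∃ t ∈ z, p = ZFSet.pair t (F t)) y ↔ s = F t) := by
        intro t s ht
        rw [ZFSet.mem_sep]
        constructor
        · rintro ⟨-, t', -, h⟩
          obtain ⟨rfl, h'⟩ := ZFSet.pair_inj.1 h
          exact h'
        · rintro rfl
          exact ⟨hop t ht, t, ht, rfl⟩
      obtain ⟨-, -, -, -, -, -, h7⟩ := h (ZFSet.sep (fun p => ∃ t ∈ z, p = ZFSet.pair t (F t)) y)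
        ZFSet.sep_subset
      obtain ⟨w, hw, h8⟩ := h7 z hz ⟨fun t ht => ⟨F t, hF t ht, (hr t _ ht).2 rfl⟩,
        fun t ht s _ s' _ hss => ((hr t s ht).1 hss.1).trans ((hr t s' ht).1 hss.2).symm⟩
      exact ⟨w, hw, fun t ht => h8 t ht _ (hF t ht) ((hr t _ ht).2 rfl)⟩
  · intro h r hr
    refine ⟨h.trans, fun z hz hrz => h.sub z hz r (fun t ht => hrz t ht), ?_, h.union, h.pair, ?_, ?_⟩
    · intro z hz
      obtain ⟨p, hp, h3⟩ := h.pow z hz
      exact ⟨p, hp, fun w hw hwz => h3 w hw fun t ht => hwz t ht⟩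
    · obtain ⟨z, hz, h0, hs⟩ := h.inf
      refine ⟨z, hz, ⟨∅, h0, fun t ht => ZFSet.notMem_empty _ ht⟩, fun w hw =>
        ⟨insert w w, hs w hw, fun t ht => ?_, fun t ht => ZFSet.mem_insert_of_mem _ ht,
          ZFSet.mem_insert _ _⟩⟩
      rcases ZFSet.mem_insert_iff.1 ht with h | h
      · exact Or.inr h
      · exact Or.inl h
    · classical
      rintro z hz ⟨h1, h2⟩
      let F : ZFSet.{u} → ZFSet.{u} := fun t =>
        if h : ∃ s ∈ y, ZFSet.pair t s ∈ r then h.choose else ∅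
      have hF : ∀ t ∈ z, F t ∈ y ∧ ZFSet.pair t (F t) ∈ r := by
        intro t ht
        have h3 := h1 t ht
        simp only [F, dif_pos h3]
        exact h3.choose_spec
      obtain ⟨w, hw, h4⟩ := h.repl z hz F fun t ht => (hF t ht).1
      refine ⟨w, hw, fun t ht s hs hts => ?_⟩
      rw [h2 t ht s hs (F t) (hF t ht).1 ⟨hts, (hF t ht).2⟩]
      exact h4 t ht

/-- The class of elements of a universe is good. -/
theorem GU.good {y : ZFSet.{u}} (h : GU y) : Good {x | x ∈ y} where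
  trans := h.trans
  sub := h.sub
  pow := by
    intro x hx
    obtain ⟨p, hp, h1⟩ := h.pow x hx
    refine h.sub p hp _ ?_
    intro w hw
    rw [ZFSet.mem_powerset] at hw
    exact h1 w (h.sub x hx w hw) hw
  union := by
    intro x hx
    obtain ⟨u, hu, h1⟩ := h.union x hx
    refine h.sub u hu _ ?_
    intro w hw
    obtain ⟨z, hz, hwz⟩ := ZFSet.mem_sUnion.1 hw
    exact h1 z hz w hwz
  pair := fun x hx y hy => h.pair_mem hx hy
  inf := h.inf
  repl := h.repl

/-- The class of all sets is good. -/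
theorem good_univ : Good (Set.univ : Set ZFSet.{u}) where
  trans := fun _ _ _ _ => Set.mem_univ _
  sub := fun _ _ _ _ => Set.mem_univ _
  pow := fun _ _ => Set.mem_univ _
  union := fun _ _ => Set.mem_univ _
  pair := fun _ _ _ _ => Set.mem_univ _
  inf := ⟨ZFSet.omega, Set.mem_univ _, ZFSet.omega_zero, fun _ h => ZFSet.omega_succ h⟩
  repl := by
    intro x _ F _
    refine ⟨ZFSet.range (fun i : Shrink.{u} x => F ((equivShrink x).symm i).1), Set.mem_univ _, ?_⟩
    intro t ht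
    rw [ZFSet.mem_range]
    exact ⟨equivShrink x ⟨t, ht⟩, by simp⟩

open Cardinal Ordinal in
/-- There is a universe in `ZFSet.{u + 1}`. -/
theorem exists_GU : ∃ y : ZFSet.{u + 1}, GU y := by
  have hκ : IsInaccessible (Cardinal.univ.{u, u + 1}) := IsInaccessible.univ
  set κ : Cardinal.{u + 1} := Cardinal.univ.{u, u + 1} with hκdef
  have hlim : Order.IsSuccLimit κ.ord := isSuccLimit_ord hκ.aleph0_lt.le
  refine ⟨ZFSet.vonNeumann κ.ord, ?_⟩
  constructor
  · intro z hz w hw
    rw [ZFSet.mem_vonNeumann] at hz ⊢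
    exact (ZFSet.rank_lt_of_mem hw).trans hz
  · intro z hz r hr
    exact ZFSet.mem_vonNeumann_of_subset hr hz
  · intro z hz
    refine ⟨ZFSet.powerset z, ?_, fun w _ hw => ZFSet.mem_powerset.2 hw⟩
    rw [ZFSet.mem_vonNeumann] at hz ⊢
    rw [ZFSet.rank_powerset]
    exact hlim.succ_lt hz
  · intro z hz
    refine ⟨ZFSet.sUnion z, ?_, fun w hw t ht => ZFSet.mem_sUnion.2 ⟨w, hw, ht⟩⟩
    rw [ZFSet.mem_vonNeumann] at hz ⊢
    exact (ZFSet.rank_sUnion_le z).trans_lt hz
  · intro z hz w hw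
    refine ⟨{z, w}, ?_, ZFSet.mem_pair.2 (Or.inl rfl), ZFSet.mem_pair.2 (Or.inr rfl)⟩
    rw [ZFSet.mem_vonNeumann] at hz hw ⊢
    rw [ZFSet.rank_pair]
    exact max_lt (hlim.succ_lt hz) (hlim.succ_lt hw)
  · refine ⟨ZFSet.vonNeumann ω, ?_, ?_, ?_⟩
    · rw [ZFSet.mem_vonNeumann, ZFSet.rank_vonNeumann, ← ord_aleph0, ord_lt_ord]
      exact hκ.aleph0_lt
    · rw [ZFSet.mem_vonNeumann, ZFSet.rank_empty]
      exact omega0_pos
    · intro w hw
      rw [ZFSet.mem_vonNeumann] at hw ⊢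
      rw [ZFSet.rank_insert]
      exact max_lt (isSuccLimit_omega0.succ_lt hw) hw
  · intro z hz F hF
    refine ⟨ZFSet.range (fun i : Shrink.{u + 1} z => F ((equivShrink z).symm i).1), ?_, ?_⟩
    · rw [ZFSet.mem_vonNeumann, ZFSet.rank_range]
      refine Ordinal.iSup_lt_of_lt_cof ?_ ?_
      · rw [hκ.isRegular.cof_ord]
        have h1 : ZFSet.card z < κ := by
          rw [ZFSet.mem_vonNeumann] at hz
          calc ZFSet.card z ≤ ZFSet.card (ZFSet.vonNeumann (ZFSet.rank z)) :=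
                ZFSet.card_mono (ZFSet.subset_vonNeumann_self z)
            _ = preBeth (ZFSet.rank z) := ZFSet.card_vonNeumann _
            _ < preBeth κ.ord := preBeth_lt_preBeth.2 hz
            _ = κ := hκ.preBeth_ord
        exact h1
      · intro i
        have := hF _ ((equivShrink z).symm i).2
        rw [ZFSet.mem_vonNeumann] at this
        exact hlim.succ_lt this
    · intro t ht
      rw [ZFSet.mem_range]
      exact ⟨equivShrink z ⟨t, ht⟩, by simp⟩

end Pool.Agent.H213R3.MC
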